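import Mathlib

/-!
Perturbation of the density by antisymmetrised functions: integral identities.
-/

open MeasureTheory
open scoped ENNReal

namespace Pool.Agent.RdvTour

section BM

variable {Ω : Type*} [MeasurableSpace Ω]

/-- bounded measurable functions -/
def BM (f : Ω → ℝ) : Prop := Measurable f ∧ ∃ C, ∀ z, |f z| ≤ C

lemma BM.const (c : ℝ) : BM (fun _ : Ω => c) := ⟨measurable_const, |c|, fun _ => le_rfl⟩

lemma BM.add {f g : Ω → ℝ} (hf : BM f) (hg : BM g) : BM (fun z => f z + g z) := by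
  obtain ⟨hf, C, hC⟩ := hf
  obtain ⟨hg, D, hD⟩ := hg
  refine ⟨hf.add hg, C + D, fun z => ?_⟩
  exact (abs_add_le _ _).trans (add_le_add (hC z) (hD z))

lemma BM.neg {f : Ω → ℝ} (hf : BM f) : BM (fun z => - f z) := by
  obtain ⟨hf, C, hC⟩ := hf
  refine ⟨hf.neg, C, fun z => ?_⟩
  rw [abs_neg]
  exact hC z

lemma BM.sub {f g : Ω → ℝ} (hf : BM f) (hg : BM g) : BM (fun z => f z - g z) := by
  simpa only [sub_eq_add_neg] using hf.add hg.neg

lemma BM.mul {f g : Ω → ℝ} (hf : BM f) (hg : BM g) : BM (fun z => f z * g z) := by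
  obtain ⟨hf, C, hC⟩ := hf
  obtain ⟨hg, D, hD⟩ := hg
  refine ⟨hf.mul hg, C * D, fun z => ?_⟩
  rw [abs_mul]
  exact mul_le_mul (hC z) (hD z) (abs_nonneg _) ((abs_nonneg _).trans (hC z))

lemma BM.comp {Ω' : Type*} [MeasurableSpace Ω'] {f : Ω → ℝ} (hf : BM f) {T : Ω' → Ω}
    (hT : Measurable T) : BM (fun z => f (T z)) := by
  obtain ⟨hf, C, hC⟩ := hf
  exact ⟨hf.comp hT, C, fun z => hC _⟩

lemma BM.integrable {f : Ω → ℝ} (hf : BM f) (P : Measure Ω) [IsFiniteMeasure P] :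
    Integrable f P := by
  obtain ⟨hf, C, hC⟩ := hf
  exact Integrable.of_bound hf.aestronglyMeasurable C (Filter.Eventually.of_forall hC)

end BM

variable {Ω : Type*} [MeasurableSpace Ω] {P : Measure Ω} [IsProbabilityMeasure P]

lemma integral_comp_inv {Ω : Type*} [MeasurableSpace Ω] {P : Measure Ω} {T : Ω → Ω}
    (hT : MeasurePreserving T P P) (hinv : ∀ z, T (T z) = z) (H : Ω → ℝ) :
    ∫ z, H (T z) ∂P = ∫ z, H z ∂P :=
  hT.integral_comp (MeasurableEquiv.ofInvolutive T hinv hT.measurable).measurableEmbedding H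

lemma integral_eq_zero_of_anti {Ω : Type*} [MeasurableSpace Ω] {P : Measure Ω} {T : Ω → Ω}
    (hT : MeasurePreserving T P P) (hinv : ∀ z, T (T z) = z) {H : Ω → ℝ}
    (hH : ∀ z, H (T z) = - H z) : ∫ z, H z ∂P = 0 := by
  have h := integral_comp_inv hT hinv H
  simp only [hH] at h
  rw [integral_neg] at h
  linarith

/-- antisymmetrisation -/
def anti (S : Ω → Ω) (φ : Ω → ℝ) : Ω → ℝ := fun z => φ z - φ (S z)

/-- alternating double sum -/
def dbl (S : Ω → Ω) (F : Ω → Ω → ℝ) : Ω → Ω → ℝ := fun z z' =>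
  F z z' - F (S z) z' - F z (S z') + F (S z) (S z')

/-- the bilinear form with kernel `F` -/
noncomputable def JJ (P : Measure Ω) (F : Ω → Ω → ℝ) (φ ψ : Ω → ℝ) : ℝ :=
  ∫ z, F z.1 z.2 * (φ z.1 * ψ z.2) ∂(P.prod P)

omit [IsProbabilityMeasure P] in
lemma BM.anti' {S : Ω → Ω} (hS : Measurable S) {φ : Ω → ℝ} (hφ : BM φ) : BM (anti S φ) :=
  hφ.sub (hφ.comp hS)

lemma BM.dbl' {S : Ω → Ω} (hS : Measurable S) {F : Ω → Ω → ℝ}
    (hF : BM (fun z : Ω × Ω => F z.1 z.2)) : BM (fun z : Ω × Ω => dbl S F z.1 z.2) := by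
  have h1 : BM (fun z : Ω × Ω => F (S z.1) z.2) :=
    hF.comp (T := fun z : Ω × Ω => (S z.1, z.2)) ((hS.comp measurable_fst).prodMk measurable_snd)
  have h2 : BM (fun z : Ω × Ω => F z.1 (S z.2)) :=
    hF.comp (T := fun z : Ω × Ω => (z.1, S z.2)) (measurable_fst.prodMk (hS.comp measurable_snd))
  have h3 : BM (fun z : Ω × Ω => F (S z.1) (S z.2)) :=
    hF.comp (T := fun z : Ω × Ω => (S z.1, S z.2))
      ((hS.comp measurable_fst).prodMk (hS.comp measurable_snd))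
  exact ((hF.sub h1).sub h2).add h3

lemma BM.integrand {F : Ω → Ω → ℝ} (hF : BM (fun z : Ω × Ω => F z.1 z.2)) {φ ψ : Ω → ℝ}
    (hφ : BM φ) (hψ : BM ψ) : BM (fun z : Ω × Ω => F z.1 z.2 * (φ z.1 * ψ z.2)) :=
  hF.mul ((hφ.comp measurable_fst).mul (hψ.comp measurable_snd))

lemma int4 {Ω : Type*} [MeasurableSpace Ω] {P : Measure Ω} {a b c d : Ω → ℝ}
    (ha : Integrable a P) (hb : Integrable b P) (hc : Integrable c P) (hd : Integrable d P) :
    ∫ z, (a z - b z - c z + d z) ∂P = ∫ z, a z ∂P - ∫ z, b z ∂P - ∫ z, c z ∂P + ∫ z, d z ∂P := by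
  have h1 : ∫ z, (a z - b z - c z + d z) ∂P = ∫ z, (a z - b z - c z) ∂P + ∫ z, d z ∂P :=
    integral_add ((ha.sub hb).sub hc) hd
  have h2 : ∫ z, (a z - b z - c z) ∂P = ∫ z, (a z - b z) ∂P - ∫ z, c z ∂P :=
    integral_sub (ha.sub hb) hc
  have h3 : ∫ z, (a z - b z) ∂P = ∫ z, a z ∂P - ∫ z, b z ∂P := integral_sub ha hb
  rw [h1, h2, h3]

/-- Step lemma. -/
lemma JJ_anti {S : Ω → Ω} (hS : MeasurePreserving S P P) (hinv : ∀ z, S (S z) = z)
    {F : Ω → Ω → ℝ} (hF : BM (fun z : Ω × Ω => F z.1 z.2)) {φ ψ : Ω → ℝ} (hφ : BM φ)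
    (hψ : BM ψ) : JJ P F (anti S φ) (anti S ψ) = JJ P (dbl S F) φ ψ := by
  have hSm := hS.measurable
  have e1 : ∫ z : Ω × Ω, F z.1 z.2 * (φ (S z.1) * ψ z.2) ∂(P.prod P) =
      ∫ z : Ω × Ω, F (S z.1) z.2 * (φ z.1 * ψ z.2) ∂(P.prod P) := by
    have h := integral_comp_inv (P := P.prod P) (T := Prod.map S id)
      (hS.prod (MeasurePreserving.id P)) (fun z => by
        rcases z with ⟨z, z'⟩; simp only [Prod.map_apply, id, hinv])
      (fun z : Ω × Ω => F (S z.1) z.2 * (φ z.1 * ψ z.2))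
    rw [← h]
    simp [hinv]
  have e2 : ∫ z : Ω × Ω, F z.1 z.2 * (φ z.1 * ψ (S z.2)) ∂(P.prod P) =
      ∫ z : Ω × Ω, F z.1 (S z.2) * (φ z.1 * ψ z.2) ∂(P.prod P) := by
    have h := integral_comp_inv (P := P.prod P) (T := Prod.map id S)
      ((MeasurePreserving.id P).prod hS) (fun z => by
        rcases z with ⟨z, z'⟩; simp only [Prod.map_apply, id, hinv])
      (fun z : Ω × Ω => F z.1 (S z.2) * (φ z.1 * ψ z.2))
    rw [← h]
    simp [hinv]
  have e3 : ∫ z : Ω × Ω, F z.1 z.2 * (φ (S z.1) * ψ (S z.2)) ∂(P.prod P) =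
      ∫ z : Ω × Ω, F (S z.1) (S z.2) * (φ z.1 * ψ z.2) ∂(P.prod P) := by
    have h := integral_comp_inv (P := P.prod P) (T := Prod.map S S)
      (hS.prod hS) (fun z => by
        rcases z with ⟨z, z'⟩; simp only [Prod.map_apply, hinv])
      (fun z : Ω × Ω => F (S z.1) (S z.2) * (φ z.1 * ψ z.2))
    rw [← h]
    simp [hinv]
  have b0 := (hF.integrand hφ hψ).integrable (P.prod P)
  have b1 := (hF.integrand (hφ.comp hSm) hψ).integrable (P.prod P)
  have b2 := (hF.integrand hφ (hψ.comp hSm)).integrable (P.prod P)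
  have b3 := (hF.integrand (hφ.comp hSm) (hψ.comp hSm)).integrable (P.prod P)
  have hF1 : BM (fun z : Ω × Ω => F (S z.1) z.2) :=
    hF.comp (T := fun z : Ω × Ω => (S z.1, z.2)) ((hSm.comp measurable_fst).prodMk measurable_snd)
  have hF2 : BM (fun z : Ω × Ω => F z.1 (S z.2)) :=
    hF.comp (T := fun z : Ω × Ω => (z.1, S z.2)) (measurable_fst.prodMk (hSm.comp measurable_snd))
  have hF3 : BM (fun z : Ω × Ω => F (S z.1) (S z.2)) :=
    hF.comp (T := fun z : Ω × Ω => (S z.1, S z.2))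
      ((hSm.comp measurable_fst).prodMk (hSm.comp measurable_snd))
  have c1 := (BM.integrand (F := fun z z' => F (S z) z') hF1 hφ hψ).integrable (P.prod P)
  have c2 := (BM.integrand (F := fun z z' => F z (S z')) hF2 hφ hψ).integrable (P.prod P)
  have c3 := (BM.integrand (F := fun z z' => F (S z) (S z')) hF3 hφ hψ).integrable (P.prod P)
  have hL : JJ P F (anti S φ) (anti S ψ) =
      ∫ z : Ω × Ω, F z.1 z.2 * (φ z.1 * ψ z.2) ∂(P.prod P) -
      ∫ z : Ω × Ω, F z.1 z.2 * (φ (S z.1) * ψ z.2) ∂(P.prod P) -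
      ∫ z : Ω × Ω, F z.1 z.2 * (φ z.1 * ψ (S z.2)) ∂(P.prod P) +
      ∫ z : Ω × Ω, F z.1 z.2 * (φ (S z.1) * ψ (S z.2)) ∂(P.prod P) := by
    rw [← int4 b0 b1 b2 b3]
    unfold JJ anti
    refine integral_congr_ae (Filter.Eventually.of_forall fun z => ?_)
    simp only []
    ring
  have hR : JJ P (dbl S F) φ ψ =
      ∫ z : Ω × Ω, F z.1 z.2 * (φ z.1 * ψ z.2) ∂(P.prod P) -
      ∫ z : Ω × Ω, F (S z.1) z.2 * (φ z.1 * ψ z.2) ∂(P.prod P) -
      ∫ z : Ω × Ω, F z.1 (S z.2) * (φ z.1 * ψ z.2) ∂(P.prod P) +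
      ∫ z : Ω × Ω, F (S z.1) (S z.2) * (φ z.1 * ψ z.2) ∂(P.prod P) := by
    rw [← int4 b0 c1 c2 c3]
    unfold JJ dbl
    refine integral_congr_ae (Filter.Eventually.of_forall fun z => ?_)
    simp only []
    ring
  rw [hL, hR, e1, e2, e3]

lemma anti_comp_self {S : Ω → Ω} (hinv : ∀ z, S (S z) = z) (φ : Ω → ℝ) (z : Ω) :
    anti S φ (S z) = - anti S φ z := by
  unfold anti
  rw [hinv]; ring

/-- antisymmetry is inherited -/
lemma anti_comp_of_comm {S T : Ω → Ω} (hc : ∀ z, S (T z) = T (S z)) {φ : Ω → ℝ}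
    (hφ : ∀ z, φ (T z) = - φ z) (z : Ω) : anti S φ (T z) = - anti S φ z := by
  unfold anti
  rw [hc, hφ, hφ]; ring

lemma abs_anti_le {S : Ω → Ω} {φ : Ω → ℝ} {C : ℝ} (h : ∀ z, |φ z| ≤ C) (z : Ω) :
    |anti S φ z| ≤ 2 * C := by
  unfold anti
  have := abs_sub (φ z) (φ (S z))
  have h1 := h z
  have h2 := h (S z)
  linarith

/-- expansion of the bilinear form -/
lemma JJ_expand {F : Ω → Ω → ℝ} (hF : BM (fun z : Ω × Ω => F z.1 z.2)) {g : Ω → ℝ} (hg : BM g)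
    (c : ℝ) :
    JJ P F (fun z => 1 + c * g z) (fun z => 1 + c * g z) =
      JJ P F (fun _ => 1) (fun _ => 1) + c * (JJ P F g (fun _ => 1) + JJ P F (fun _ => 1) g) +
        c ^ 2 * JJ P F g g := by
  have b0 := (hF.integrand (BM.const 1) (BM.const 1)).integrable (P.prod P)
  have b1 := (hF.integrand hg (BM.const 1)).integrable (P.prod P)
  have b2 := (hF.integrand (BM.const 1) hg).integrable (P.prod P)
  have b3 := (hF.integrand hg hg).integrable (P.prod P)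
  have h := int4 b0 (b1.const_mul (-c)) (b2.const_mul (-c)) (b3.const_mul (c ^ 2))
  rw [integral_const_mul, integral_const_mul, integral_const_mul] at h
  unfold JJ
  have h' : ∫ z : Ω × Ω, F z.1 z.2 * ((1 + c * g z.1) * (1 + c * g z.2)) ∂(P.prod P) =
      ∫ z : Ω × Ω, (F z.1 z.2 * (1 * 1) - -c * (F z.1 z.2 * (g z.1 * 1)) -
        -c * (F z.1 z.2 * (1 * g z.2)) + c ^ 2 * (F z.1 z.2 * (g z.1 * g z.2))) ∂(P.prod P) := by
    refine integral_congr_ae (Filter.Eventually.of_forall fun z => ?_)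
    simp only []
    ring
  rw [h', h]
  ring

end Pool.Agent.RdvTour
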