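import Pool.Agent.Lib.RdvTour.Basic

namespace Pool.Agent.RdvTour

open Classical in
/-- `1` if both of two marked days show no meeting; `s`, `s'` tell whether the two days are
exchanged for the first, second player; `q` tells whether the second day counts. -/
noncomputable def kk {L : Type*} (q : Prop) (a₁ a₂ b₁ b₂ : L) (s s' : Bool) : ℝ :=
  if (cond s a₂ a₁ ≠ cond s' b₂ b₁ ∧ (q → cond s a₁ a₂ ≠ cond s' b₁ b₂)) then 1 else 0

/-- the exchange of days `D`, `D + 1` -/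
def sw (D : ℕ) (s : Bool) : Equiv.Perm ℕ := cond s (Equiv.swap D (D + 1)) 1

lemma sw_of_ne {D d : ℕ} {s : Bool} (h : d ≠ D) (h' : d ≠ D + 1) : sw D s d = d := by
  cases s
  · rfl
  · exact Equiv.swap_apply_of_ne_of_ne h h'

lemma sw_left (D : ℕ) (s : Bool) : sw D s D = cond s (D + 1) D := by
  cases s
  · rfl
  · exact Equiv.swap_apply_left D (D + 1)

lemma sw_right (D : ℕ) (s : Bool) : sw D s (D + 1) = cond s D (D + 1) := by
  cases s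
  · rfl
  · exact Equiv.swap_apply_right D (D + 1)

/-- unmarked days -/
def unm (D₁ D₂ D₃ d : ℕ) : Prop :=
  d ≠ D₁ ∧ d ≠ D₁ + 1 ∧ d ≠ D₂ ∧ d ≠ D₂ + 1 ∧ d ≠ D₃ ∧ d ≠ D₃ + 1

open Classical in
/-- no meeting on the unmarked days before `t` -/
noncomputable def rr {L : Type*} (D₁ D₂ D₃ t : ℕ) (u v : ℕ → L) : ℝ :=
  if ∀ d < t, unm D₁ D₂ D₃ d → u d ≠ v d then 1 else 0

lemma cond_apply {L : Type*} (u : ℕ → L) (s : Bool) (a b : ℕ) :
    u (cond s a b) = cond s (u a) (u b) := by cases s <;> rfl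

lemma nt_factor {L : Type*} {D₁ D₂ D₃ t : ℕ} (h12 : D₁ + 2 ≤ D₂) (h23 : D₂ + 2 ≤ D₃)
    (ht : D₃ < t) (u v : ℕ → L) (s₁ s₂ s₃ s₁' s₂' s₃' : Bool) :
    nt t (((u ∘ sw D₁ s₁) ∘ sw D₂ s₂) ∘ sw D₃ s₃) (((v ∘ sw D₁ s₁') ∘ sw D₂ s₂') ∘ sw D₃ s₃') =
      rr D₁ D₂ D₃ t u v * kk True (u D₁) (u (D₁ + 1)) (v D₁) (v (D₁ + 1)) s₁ s₁' *
        kk True (u D₂) (u (D₂ + 1)) (v D₂) (v (D₂ + 1)) s₂ s₂' *
        kk (D₃ + 1 < t) (u D₃) (u (D₃ + 1)) (v D₃) (v (D₃ + 1)) s₃ s₃' := by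
  classical
  -- values of the permuted path
  have hval : ∀ (w : ℕ → L) (s₁ s₂ s₃ : Bool),
      ((∀ d, unm D₁ D₂ D₃ d → (((w ∘ sw D₁ s₁) ∘ sw D₂ s₂) ∘ sw D₃ s₃) d = w d) ∧
      (((w ∘ sw D₁ s₁) ∘ sw D₂ s₂) ∘ sw D₃ s₃) D₁ = cond s₁ (w (D₁ + 1)) (w D₁) ∧
      (((w ∘ sw D₁ s₁) ∘ sw D₂ s₂) ∘ sw D₃ s₃) (D₁ + 1) = cond s₁ (w D₁) (w (D₁ + 1)) ∧
      (((w ∘ sw D₁ s₁) ∘ sw D₂ s₂) ∘ sw D₃ s₃) D₂ = cond s₂ (w (D₂ + 1)) (w D₂) ∧
      (((w ∘ sw D₁ s₁) ∘ sw D₂ s₂) ∘ sw D₃ s₃) (D₂ + 1) = cond s₂ (w D₂) (w (D₂ + 1)) ∧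
      (((w ∘ sw D₁ s₁) ∘ sw D₂ s₂) ∘ sw D₃ s₃) D₃ = cond s₃ (w (D₃ + 1)) (w D₃) ∧
      (((w ∘ sw D₁ s₁) ∘ sw D₂ s₂) ∘ sw D₃ s₃) (D₃ + 1) = cond s₃ (w D₃) (w (D₃ + 1))) := by
    intro w s₁ s₂ s₃
    refine ⟨?_, ?_, ?_, ?_, ?_, ?_, ?_⟩
    · intro d hd
      obtain ⟨h1, h2, h3, h4, h5, h6⟩ := hd
      simp only [Function.comp_apply]
      rw [sw_of_ne h5 h6, sw_of_ne h3 h4, sw_of_ne h1 h2]
    · simp only [Function.comp_apply]
      rw [sw_of_ne (D := D₃) (d := D₁) (by omega) (by omega),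
        sw_of_ne (D := D₂) (d := D₁) (by omega) (by omega), sw_left, cond_apply w]
    · simp only [Function.comp_apply]
      rw [sw_of_ne (D := D₃) (d := D₁ + 1) (by omega) (by omega),
        sw_of_ne (D := D₂) (d := D₁ + 1) (by omega) (by omega), sw_right, cond_apply w]
    · simp only [Function.comp_apply]
      rw [sw_of_ne (D := D₃) (d := D₂) (by omega) (by omega), sw_left]
      cases s₂
      · show w (sw D₁ s₁ D₂) = w D₂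
        rw [sw_of_ne (by omega) (by omega)]
      · show w (sw D₁ s₁ (D₂ + 1)) = w (D₂ + 1)
        rw [sw_of_ne (by omega) (by omega)]
    · simp only [Function.comp_apply]
      rw [sw_of_ne (D := D₃) (d := D₂ + 1) (by omega) (by omega), sw_right]
      cases s₂
      · show w (sw D₁ s₁ (D₂ + 1)) = w (D₂ + 1)
        rw [sw_of_ne (by omega) (by omega)]
      · show w (sw D₁ s₁ D₂) = w D₂
        rw [sw_of_ne (by omega) (by omega)]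
    · simp only [Function.comp_apply]
      rw [sw_left]
      cases s₃
      · show w (sw D₁ s₁ (sw D₂ s₂ D₃)) = w D₃
        rw [sw_of_ne (D := D₂) (by omega) (by omega), sw_of_ne (by omega) (by omega)]
      · show w (sw D₁ s₁ (sw D₂ s₂ (D₃ + 1))) = w (D₃ + 1)
        rw [sw_of_ne (D := D₂) (d := D₃ + 1) (by omega) (by omega), sw_of_ne (by omega) (by omega)]
    · simp only [Function.comp_apply]
      rw [sw_right]
      cases s₃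
      · show w (sw D₁ s₁ (sw D₂ s₂ (D₃ + 1))) = w (D₃ + 1)
        rw [sw_of_ne (D := D₂) (d := D₃ + 1) (by omega) (by omega), sw_of_ne (by omega) (by omega)]
      · show w (sw D₁ s₁ (sw D₂ s₂ D₃)) = w D₃
        rw [sw_of_ne (D := D₂) (by omega) (by omega), sw_of_ne (by omega) (by omega)]
  set U := ((u ∘ sw D₁ s₁) ∘ sw D₂ s₂) ∘ sw D₃ s₃ with hU
  set V := ((v ∘ sw D₁ s₁') ∘ sw D₂ s₂') ∘ sw D₃ s₃' with hV
  obtain ⟨u0, u1, u2, u3, u4, u5, u6⟩ := hval u s₁ s₂ s₃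
  obtain ⟨v0, v1, v2, v3, v4, v5, v6⟩ := hval v s₁' s₂' s₃'
  rw [← hU] at u0 u1 u2 u3 u4 u5 u6
  rw [← hV] at v0 v1 v2 v3 v4 v5 v6
  unfold nt rr kk
  rw [← u1, ← u2, ← u3, ← u4, ← u5, ← u6, ← v1, ← v2, ← v3, ← v4, ← v5, ← v6]
  have key : (∀ d < t, U d ≠ V d) ↔
      ((∀ d < t, unm D₁ D₂ D₃ d → u d ≠ v d) ∧
        (U D₁ ≠ V D₁ ∧ (True → U (D₁ + 1) ≠ V (D₁ + 1))) ∧
        (U D₂ ≠ V D₂ ∧ (True → U (D₂ + 1) ≠ V (D₂ + 1))) ∧
        (U D₃ ≠ V D₃ ∧ (D₃ + 1 < t → U (D₃ + 1) ≠ V (D₃ + 1)))) := by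
    constructor
    · intro h
      refine ⟨fun d hd hm => ?_, ⟨h _ (by omega), fun _ => h _ (by omega)⟩,
        ⟨h _ (by omega), fun _ => h _ (by omega)⟩, ⟨h _ ht, fun hq => h _ hq⟩⟩
      rw [← u0 d hm, ← v0 d hm]
      exact h d hd
    · rintro ⟨h0, ⟨h1, h2⟩, ⟨h3, h4⟩, ⟨h5, h6⟩⟩ d hd
      by_cases hm : unm D₁ D₂ D₃ d
      · rw [u0 d hm, v0 d hm]
        exact h0 d hd hm
      · unfold unm at hm
        by_cases e1 : d = D₁
        · rw [e1]; exact h1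
        by_cases e2 : d = D₁ + 1
        · rw [e2]; exact h2 trivial
        by_cases e3 : d = D₂
        · rw [e3]; exact h3
        by_cases e4 : d = D₂ + 1
        · rw [e4]; exact h4 trivial
        by_cases e5 : d = D₃
        · rw [e5]; exact h5
        by_cases e6 : d = D₃ + 1
        · rw [e6]; exact h6 (by omega)
        exact absurd ⟨e1, e2, e3, e4, e5, e6⟩ hm
  by_cases c0 : (∀ d < t, unm D₁ D₂ D₃ d → u d ≠ v d)
  · by_cases c1 : (U D₁ ≠ V D₁ ∧ (True → U (D₁ + 1) ≠ V (D₁ + 1)))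
    · by_cases c2 : (U D₂ ≠ V D₂ ∧ (True → U (D₂ + 1) ≠ V (D₂ + 1)))
      · by_cases c3 : (U D₃ ≠ V D₃ ∧ (D₃ + 1 < t → U (D₃ + 1) ≠ V (D₃ + 1)))
        · rw [if_pos (key.2 ⟨c0, c1, c2, c3⟩), if_pos c0, if_pos c1, if_pos c2, if_pos c3]; norm_num
        · rw [if_neg (fun h => c3 (key.1 h).2.2.2), if_neg c3, mul_zero]
      · rw [if_neg (fun h => c2 (key.1 h).2.2.1), if_neg c2, mul_zero, zero_mul]
    · rw [if_neg (fun h => c1 (key.1 h).2.1), if_neg c1, mul_zero, zero_mul, zero_mul]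
  · rw [if_neg (fun h => c0 (key.1 h).1), if_neg c0, zero_mul, zero_mul, zero_mul]

/-- alternating sum of a function of two Booleans -/
def alt (f : Bool → Bool → ℝ) : ℝ := f false false - f true false - f false true + f true true

lemma alt_kk_zero {L : Type*} {q : Prop} {a₁ a₂ b₁ b₂ : L} (h11 : a₁ ≠ b₁) (h22 : a₂ ≠ b₂)
    (h12 : a₁ ≠ b₂) (h21 : a₂ ≠ b₁) : alt (kk q a₁ a₂ b₁ b₂) = 0 := by
  unfold alt kk
  simp only [cond_true, cond_false]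
  rw [if_pos ⟨h11, fun _ => h22⟩, if_pos ⟨h21, fun _ => h12⟩, if_pos ⟨h12, fun _ => h21⟩,
    if_pos ⟨h22, fun _ => h11⟩]
  norm_num

lemma alt_kk_neg {L : Type*} {q : Prop} {a₁ a₂ b₁ b₂ : L} (h11 : a₁ = b₁) (h22 : a₂ ≠ b₂)
    (h12 : a₁ ≠ b₂) (h21 : a₂ ≠ b₁) : alt (kk q a₁ a₂ b₁ b₂) ≤ -1 := by
  unfold alt kk
  simp only [cond_true, cond_false]
  rw [if_neg (fun h => h.1 h11), if_pos ⟨h21, fun _ => h12⟩, if_pos ⟨h12, fun _ => h21⟩]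
  split_ifs <;> norm_num

lemma alt_kk_neg_true {L : Type*} {a₁ a₂ b₁ b₂ : L} (h11 : a₁ = b₁)
    (h12 : a₁ ≠ b₂) (h21 : a₂ ≠ b₁) : alt (kk True a₁ a₂ b₁ b₂) = -2 := by
  unfold alt kk
  simp only [cond_true, cond_false]
  rw [if_neg (fun h => h.1 h11), if_pos ⟨h21, fun _ => h12⟩, if_pos ⟨h12, fun _ => h21⟩,
    if_neg (fun h => h.2 trivial h11)]
  norm_num

/-- The key pointwise inequality: with labels `ℓ, x, y, z` distinct, the alternating sum of the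
no-meeting indicators is `≤ 0`. -/
lemma key_le {L M : Type*} {σ₁ σ₂ : L → M} (h₁ : Function.Injective σ₁)
    (h₂ : Function.Injective σ₂) {l x y z : L} (hlx : l ≠ x) (hly : l ≠ y) (hlz : l ≠ z)
    (hxy : x ≠ y) (hxz : x ≠ z) (hyz : y ≠ z) (hx : σ₁ x ≠ σ₂ x) (hy : σ₁ y ≠ σ₂ y)
    (hz : σ₁ z ≠ σ₂ z) (q : Prop) :
    alt (kk True (σ₁ l) (σ₁ x) (σ₂ l) (σ₂ x)) * alt (kk True (σ₁ l) (σ₁ y) (σ₂ l) (σ₂ y)) *
      alt (kk q (σ₁ l) (σ₁ z) (σ₂ l) (σ₂ z)) ≤ 0 := by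
  by_cases hl : σ₁ l = σ₂ l
  · have a1 : σ₁ x ≠ σ₂ l := fun h => hlx (h₁ (hl.trans h.symm))
    have a2 : σ₁ l ≠ σ₂ x := fun h => hlx (h₂ (hl.symm.trans h))
    have a3 : σ₁ y ≠ σ₂ l := fun h => hly (h₁ (hl.trans h.symm))
    have a4 : σ₁ l ≠ σ₂ y := fun h => hly (h₂ (hl.symm.trans h))
    have a5 : σ₁ z ≠ σ₂ l := fun h => hlz (h₁ (hl.trans h.symm))
    have a6 : σ₁ l ≠ σ₂ z := fun h => hlz (h₂ (hl.symm.trans h))
    have h3 := alt_kk_neg (q := q) hl hz a6 a5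
    rw [alt_kk_neg_true hl a2 a1, alt_kk_neg_true hl a4 a3]
    linarith
  · have hprod : alt (kk True (σ₁ l) (σ₁ x) (σ₂ l) (σ₂ x)) = 0 ∨
        alt (kk True (σ₁ l) (σ₁ y) (σ₂ l) (σ₂ y)) = 0 ∨
        alt (kk q (σ₁ l) (σ₁ z) (σ₂ l) (σ₂ z)) = 0 := by
      by_cases x1 : σ₁ l = σ₂ x
      · -- then `σ₁ l ≠ σ₂ y, σ₂ z`
        have y1 : σ₁ l ≠ σ₂ y := fun h => hxy (h₂ (x1.symm.trans h))
        have z1 : σ₁ l ≠ σ₂ z := fun h => hxz (h₂ (x1.symm.trans h))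
        by_cases y2 : σ₁ y = σ₂ l
        · right; right
          have z2 : σ₁ z ≠ σ₂ l := fun h => hyz (h₁ (y2.trans h.symm))
          exact alt_kk_zero hl hz z1 z2
        · right; left
          exact alt_kk_zero hl hy y1 y2
      · by_cases x2 : σ₁ x = σ₂ l
        · have y2 : σ₁ y ≠ σ₂ l := fun h => hxy (h₁ (x2.trans h.symm))
          have z2 : σ₁ z ≠ σ₂ l := fun h => hxz (h₁ (x2.trans h.symm))
          by_cases y1 : σ₁ l = σ₂ y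
          · right; right
            have z1 : σ₁ l ≠ σ₂ z := fun h => hyz (h₂ (y1.symm.trans h))
            exact alt_kk_zero hl hz z1 z2
          · right; left
            exact alt_kk_zero hl hy y1 y2
        · left
          exact alt_kk_zero hl hx x1 x2
    rcases hprod with h | h | h <;> rw [h] <;> simp

end Pool.Agent.RdvTour
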