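import Pool.Agent.Lib.RdvTour.Swap
import Pool.Agent.Lib.RdvTour.Pointwise
import Pool.Agent.Lib.RdvTour.Anti

open MeasureTheory
open scoped ENNReal

namespace Pool.Agent.RdvTour

variable {m : ℕ}

/-- the randomness used by a tour strategy -/
abbrev Seed (m : ℕ) : Type := Fin (m + 2) × ((ℕ → Bool) × (ℕ → Equiv.Perm (Fin (m + 1))))

/-- the sequence of labels -/
def W (z : Seed m) : ℕ → Fin (m + 2) := word z.1 z.2.1 z.2.2

/-- the law of the randomness -/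
noncomputable def seedLaw (m : ℕ) (D : Measure (ℕ → Bool)) : Measure (Seed m) :=
  (uniform (Fin (m + 2))).prod
    (D.prod (Measure.infinitePi fun _ : ℕ => uniform (Equiv.Perm (Fin (m + 1)))))

lemma tourLaw_eq (m : ℕ) (D : Measure (ℕ → Bool)) : tourLaw m D = (seedLaw m D).map W := rfl

instance (m : ℕ) (D : Measure (ℕ → Bool)) [IsProbabilityMeasure D] :
    IsProbabilityMeasure (seedLaw m D) := by
  unfold seedLaw; infer_instance

/-- exchange of the first two visits of block `k` -/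
def SS (k : ℕ) (z : Seed m) : Seed m := (z.1, z.2.1, swapAt k z.2.2)

lemma SS_SS (k : ℕ) (z : Seed m) : SS k (SS k z) = z := by
  unfold SS; rw [swapAt_swapAt]

lemma SS_comm (k l : ℕ) (z : Seed m) (h : k ≠ l) : SS k (SS l z) = SS l (SS k z) := by
  unfold SS; simp only; rw [swapAt_comm k l _ h]

lemma measurePreserving_SS (k : ℕ) (D : Measure (ℕ → Bool)) [IsProbabilityMeasure D] :
    MeasurePreserving (SS (m := m) k) (seedLaw m D) (seedLaw m D) := by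
  have h := (MeasurePreserving.id (uniform (Fin (m + 2)))).prod
    ((MeasurePreserving.id D).prod (measurePreserving_swapAt (m := m) k))
  exact h

lemma W_SS (hm : 2 ≤ m) (k : ℕ) (z : Seed m) :
    W (SS k z) = W z ∘ Equiv.swap (k * (m + 1) + 1) (k * (m + 1) + 2) :=
  word_swapAt hm k z.1 z.2.1 z.2.2

lemma W_cond (hm : 2 ≤ m) (k : ℕ) (z : Seed m) (s : Bool) :
    W (cond s (SS k z) z) = W z ∘ sw (k * (m + 1) + 1) s := by
  cases s
  · rfl
  · exact W_SS hm k z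

lemma measurable_start (k : ℕ) : Measurable (fun z : Seed m => start z.1 z.2.1 z.2.2 k) := by
  induction k with
  | zero => exact measurable_fst
  | succ k ih =>
    have h1 : Measurable (fun z : Seed m => (start z.1 z.2.1 z.2.2 k, (z.2.1 k, z.2.2 k))) :=
      ih.prodMk (((measurable_pi_apply k).comp (measurable_fst.comp measurable_snd)).prodMk
        ((measurable_pi_apply k).comp (measurable_snd.comp measurable_snd)))
    have h2 : Measurable (fun y : Fin (m + 2) × (Bool × Equiv.Perm (Fin (m + 1))) =>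
        if y.2.1 = true then y.1.succAbove (y.2.2 (Fin.last m)) else y.1) := Measurable.of_discrete
    exact h2.comp h1

lemma measurable_W : Measurable (W (m := m)) := by
  refine measurable_pi_iff.2 fun t => ?_
  rcases t with _ | t
  · exact measurable_fst
  · have h1 : Measurable (fun z : Seed m => (start z.1 z.2.1 z.2.2 (t / (m + 1)),
        (z.2.1 (t / (m + 1)), z.2.2 (t / (m + 1))))) :=
      (measurable_start (t / (m + 1))).prodMk
        (((measurable_pi_apply (t / (m + 1))).comp (measurable_fst.comp measurable_snd)).prodMk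
        ((measurable_pi_apply (t / (m + 1))).comp (measurable_snd.comp measurable_snd)))
    have h2 : Measurable (fun y : Fin (m + 2) × (Bool × Equiv.Perm (Fin (m + 1))) =>
        if y.2.1 = true then y.1.succAbove (y.2.2 ⟨t % (m + 1), Nat.mod_lt _ (Nat.succ_pos m)⟩)
        else y.1) := Measurable.of_discrete
    exact h2.comp h1

/-- The base event. -/
def A0 (m k₁ k₂ k₃ : ℕ) : Set (Seed m) :=
  {z | z.1 = 0 ∧ (∀ i ≤ k₃, z.2.1 i = decide (i = k₁ ∨ i = k₂ ∨ i = k₃)) ∧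
    z.2.2 k₁ = 1 ∧ z.2.2 k₂ = Equiv.swap 0 1 ∧
    z.2.2 k₃ = Equiv.swap 0 1 * Equiv.swap 1 (Fin.last m)}

section values

variable {k₁ k₂ k₃ : ℕ} {z : Seed m}

lemma start_stay {c : Fin (m + 2)} {b : ℕ → Bool} {r : ℕ → Equiv.Perm (Fin (m + 1))} {i j : ℕ}
    (hij : i ≤ j) (h : ∀ l, i ≤ l → l < j → b l = false) : start c b r j = start c b r i := by
  induction j with
  | zero =>
    have : i = 0 := by omega
    rw [this]
  | succ j ih =>
    rcases Nat.lt_or_ge j i with hlt | hge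
    · have : i = j + 1 := by omega
      rw [this]
    · show (if b j = true then _ else start c b r j) = _
      rw [if_neg (by rw [h j hge (Nat.lt_succ_self j)]; simp)]
      exact ih hge (fun l h1 h2 => h l h1 (by omega))

lemma one_val (hm : 2 ≤ m) : ((1 : Fin (m + 1)) : ℕ) = 1 := by
  rw [Fin.val_one', Nat.mod_eq_of_lt (by omega)]

lemma A0_start1 (h12 : k₁ < k₂) (h23 : k₂ < k₃) (hz : z ∈ A0 m k₁ k₂ k₃) {i : ℕ} (hi : i ≤ k₁) :
    start z.1 z.2.1 z.2.2 i = 0 := by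
  obtain ⟨h0, hb, -, -, -⟩ := hz
  rw [start_stay (i := 0) (Nat.zero_le _)]
  · exact h0
  · intro l _ hl
    rw [hb l (by omega)]
    simp; omega

lemma A0_start2 (h12 : k₁ < k₂) (h23 : k₂ < k₃) (hz : z ∈ A0 m k₁ k₂ k₃) {i : ℕ} (hi : k₁ < i)
    (hi' : i ≤ k₂) : start z.1 z.2.1 z.2.2 i = Fin.last (m + 1) := by
  have hs := A0_start1 h12 h23 hz le_rfl
  obtain ⟨h0, hb, h1, -, -⟩ := hz
  rw [start_stay (i := k₁ + 1) (by omega)]
  · show (if z.2.1 k₁ = true then (start z.1 z.2.1 z.2.2 k₁).succAbove (z.2.2 k₁ (Fin.last m))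
      else _) = _
    rw [if_pos (by rw [hb k₁ (by omega)]; simp), hs, h1, Equiv.Perm.one_apply,
      Fin.succAbove_zero_apply, Fin.succ_last]
  · intro l h1 hl
    rw [hb l (by omega)]
    simp; omega

lemma A0_start3 (hm : 2 ≤ m) (h12 : k₁ < k₂) (h23 : k₂ < k₃) (hz : z ∈ A0 m k₁ k₂ k₃) {i : ℕ}
    (hi : k₂ < i) (hi' : i ≤ k₃) : start z.1 z.2.1 z.2.2 i = Fin.castSucc (Fin.last m) := by
  have hs := A0_start2 h12 h23 hz h12 le_rfl
  obtain ⟨h0, hb, -, h2, -⟩ := hz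
  rw [start_stay (i := k₂ + 1) (by omega)]
  · show (if z.2.1 k₂ = true then (start z.1 z.2.1 z.2.2 k₂).succAbove (z.2.2 k₂ (Fin.last m))
      else _) = _
    rw [if_pos (by rw [hb k₂ (by omega)]; simp), hs, h2, swap_last hm, Fin.succAbove_last_apply]
  · intro l h1 hl
    rw [hb l (by omega)]
    simp; omega

/-- values before the first tour -/
lemma A0_w0 (h12 : k₁ < k₂) (h23 : k₂ < k₃) (hz : z ∈ A0 m k₁ k₂ k₃) {k j : ℕ} (hk : k < k₁)
    (hj : j < m + 1) : W z (k * (m + 1) + j + 1) = 0 := by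
  have hs := A0_start1 h12 h23 hz hk.le
  obtain ⟨h0, hb, -, -, -⟩ := hz
  unfold W
  rw [word_day _ _ _ _ _ hj, if_neg (by rw [hb k (by omega)]; simp; omega)]
  exact hs

lemma A0_w1 (h12 : k₁ < k₂) (h23 : k₂ < k₃) (hz : z ∈ A0 m k₁ k₂ k₃) {j : ℕ}
    (hj : j < m + 1) : W z (k₁ * (m + 1) + j + 1) = Fin.succ ⟨j, hj⟩ := by
  have hs := A0_start1 h12 h23 hz le_rfl
  obtain ⟨h0, hb, h1, -, -⟩ := hz
  unfold W
  rw [word_day _ _ _ _ _ hj, if_pos (by rw [hb k₁ (by omega)]; simp), hs, h1,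
    Equiv.Perm.one_apply, Fin.succAbove_zero_apply]

lemma A0_w12 (h12 : k₁ < k₂) (h23 : k₂ < k₃) (hz : z ∈ A0 m k₁ k₂ k₃) {k j : ℕ} (hk : k₁ < k)
    (hk' : k < k₂) (hj : j < m + 1) : W z (k * (m + 1) + j + 1) = Fin.last (m + 1) := by
  have hs := A0_start2 h12 h23 hz hk hk'.le
  obtain ⟨h0, hb, -, -, -⟩ := hz
  unfold W
  rw [word_day _ _ _ _ _ hj, if_neg (by rw [hb k (by omega)]; simp; omega)]
  exact hs

lemma A0_w2 (h12 : k₁ < k₂) (h23 : k₂ < k₃) (hz : z ∈ A0 m k₁ k₂ k₃) {j : ℕ}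
    (hj : j < m + 1) :
    W z (k₂ * (m + 1) + j + 1) = Fin.castSucc (Equiv.swap (0 : Fin (m + 1)) 1 ⟨j, hj⟩) := by
  have hs := A0_start2 h12 h23 hz h12 le_rfl
  obtain ⟨h0, hb, -, h2, -⟩ := hz
  unfold W
  rw [word_day _ _ _ _ _ hj, if_pos (by rw [hb k₂ (by omega)]; simp), hs, h2,
    Fin.succAbove_last_apply]

lemma A0_w23 (hm : 2 ≤ m) (h12 : k₁ < k₂) (h23 : k₂ < k₃) (hz : z ∈ A0 m k₁ k₂ k₃) {k j : ℕ}
    (hk : k₂ < k) (hk' : k < k₃) (hj : j < m + 1) :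
    W z (k * (m + 1) + j + 1) = Fin.castSucc (Fin.last m) := by
  have hs := A0_start3 hm h12 h23 hz hk hk'.le
  obtain ⟨h0, hb, -, -, -⟩ := hz
  unfold W
  rw [word_day _ _ _ _ _ hj, if_neg (by rw [hb k (by omega)]; simp; omega)]
  exact hs

lemma A0_w3 (hm : 2 ≤ m) (h12 : k₁ < k₂) (h23 : k₂ < k₃) (hz : z ∈ A0 m k₁ k₂ k₃) {j : ℕ}
    (hj : j < m + 1) :
    W z (k₃ * (m + 1) + j + 1) = (Fin.castSucc (Fin.last m)).succAbove
      ((Equiv.swap (0 : Fin (m + 1)) 1 * Equiv.swap 1 (Fin.last m)) ⟨j, hj⟩) := by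
  have hs := A0_start3 hm h12 h23 hz h23 le_rfl
  obtain ⟨h0, hb, -, -, h3⟩ := hz
  unfold W
  rw [word_day _ _ _ _ _ hj, if_pos (by rw [hb k₃ (by omega)]; simp), hs, h3]

/-- the labels `ℓ, x, y, z` -/
def lab (m : ℕ) : Fin 4 → Fin (m + 2)
  | 0 => 1
  | 1 => ⟨2 % (m + 2), Nat.mod_lt _ (by omega)⟩
  | 2 => 0
  | 3 => Fin.last (m + 1)

lemma lab_inj (hm : 2 ≤ m) : Function.Injective (lab m) := by
  have h0 : ((lab m 0 : Fin (m + 2)) : ℕ) = 1 := by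
    show ((1 : Fin (m + 2)) : ℕ) = 1
    exact Fin.val_one _
  have h1 : ((lab m 1 : Fin (m + 2)) : ℕ) = 2 := by
    show 2 % (m + 2) = 2
    rw [Nat.mod_eq_of_lt (by omega)]
  have h2 : ((lab m 2 : Fin (m + 2)) : ℕ) = 0 := rfl
  have h3 : ((lab m 3 : Fin (m + 2)) : ℕ) = m + 1 := rfl
  intro a b hab
  have hab' := congrArg Fin.val hab
  fin_cases a <;> fin_cases b <;> simp only [Fin.zero_eta, Fin.mk_one, Fin.reduceFinMk] at hab' ⊢ <;>
    first
      | rfl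
      | (exfalso; simp only [h0, h1, h2, h3] at hab'; omega)

lemma lab0 : ((lab m 0 : Fin (m + 2)) : ℕ) = 1 := Fin.val_one _
lemma lab1 (hm : 2 ≤ m) : ((lab m 1 : Fin (m + 2)) : ℕ) = 2 := by
  show 2 % (m + 2) = 2
  rw [Nat.mod_eq_of_lt (by omega)]
lemma lab2 : ((lab m 2 : Fin (m + 2)) : ℕ) = 0 := rfl
lemma lab3 : ((lab m 3 : Fin (m + 2)) : ℕ) = m + 1 := rfl

lemma fin1 (hm : 2 ≤ m) : (⟨1, by omega⟩ : Fin (m + 1)) = 1 := by
  apply Fin.ext
  rw [one_val hm]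

lemma swap01_0 (hm : 2 ≤ m) (h : 0 < m + 1) :
    ((Equiv.swap (0 : Fin (m + 1)) 1 ⟨0, h⟩ : Fin (m + 1)) : ℕ) = 1 := by
  have : (⟨0, h⟩ : Fin (m + 1)) = 0 := rfl
  rw [this, Equiv.swap_apply_left, one_val hm]

lemma swap01_1 (hm : 2 ≤ m) (h : 1 < m + 1) :
    ((Equiv.swap (0 : Fin (m + 1)) 1 ⟨1, h⟩ : Fin (m + 1)) : ℕ) = 0 := by
  rw [fin1 hm, Equiv.swap_apply_right]; rfl

lemma swap01_ge (hm : 2 ≤ m) {j : ℕ} (h : j < m + 1) (hj : 2 ≤ j) :
    (Equiv.swap (0 : Fin (m + 1)) 1 ⟨j, h⟩ : Fin (m + 1)) = ⟨j, h⟩ := by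
  apply Equiv.swap_apply_of_ne_of_ne
  · intro h'
    have := congrArg Fin.val h'
    simp at this; omega
  · intro h'
    have := congrArg Fin.val h'
    rw [one_val hm] at this
    simp at this; omega

lemma A0_d0 (hz : z ∈ A0 m k₁ k₂ k₃) : W z 0 = lab m 2 := hz.1

lemma A0_d11 (h12 : k₁ < k₂) (h23 : k₂ < k₃) (hz : z ∈ A0 m k₁ k₂ k₃) :
    W z (k₁ * (m + 1) + 1) = lab m 0 := by
  show W z (k₁ * (m + 1) + 0 + 1) = lab m 0
  have h := A0_w1 h12 h23 hz (j := 0) (by omega)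
  rw [h]
  apply Fin.ext
  rw [lab0, Fin.val_succ]

lemma A0_d12 (hm : 2 ≤ m) (h12 : k₁ < k₂) (h23 : k₂ < k₃) (hz : z ∈ A0 m k₁ k₂ k₃) :
    W z (k₁ * (m + 1) + 1 + 1) = lab m 1 := by
  have h := A0_w1 h12 h23 hz (j := 1) (by omega)
  rw [h]
  apply Fin.ext
  rw [lab1 hm, Fin.val_succ]

lemma A0_d1m (h12 : k₁ < k₂) (h23 : k₂ < k₃) (hz : z ∈ A0 m k₁ k₂ k₃) :
    W z (k₁ * (m + 1) + m + 1) = lab m 3 := by
  have h := A0_w1 h12 h23 hz (j := m) (by omega)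
  rw [h]
  apply Fin.ext
  rw [lab3, Fin.val_succ]

lemma A0_d21 (hm : 2 ≤ m) (h12 : k₁ < k₂) (h23 : k₂ < k₃) (hz : z ∈ A0 m k₁ k₂ k₃) :
    W z (k₂ * (m + 1) + 1) = lab m 0 := by
  show W z (k₂ * (m + 1) + 0 + 1) = lab m 0
  have h := A0_w2 h12 h23 hz (j := 0) (by omega)
  rw [h]
  apply Fin.ext
  rw [lab0, Fin.val_castSucc, swap01_0 hm]

lemma A0_d22 (hm : 2 ≤ m) (h12 : k₁ < k₂) (h23 : k₂ < k₃) (hz : z ∈ A0 m k₁ k₂ k₃) :
    W z (k₂ * (m + 1) + 1 + 1) = lab m 2 := by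
  have h := A0_w2 h12 h23 hz (j := 1) (by omega)
  rw [h]
  apply Fin.ext
  rw [lab2, Fin.val_castSucc, swap01_1 hm]

lemma A0_d23 (hm : 2 ≤ m) (h12 : k₁ < k₂) (h23 : k₂ < k₃) (hz : z ∈ A0 m k₁ k₂ k₃) :
    W z (k₂ * (m + 1) + 2 + 1) = lab m 1 := by
  have h := A0_w2 h12 h23 hz (j := 2) (by omega)
  rw [h]
  apply Fin.ext
  rw [lab1 hm, Fin.val_castSucc, swap01_ge hm _ le_rfl]

lemma A0_d31 (hm : 2 ≤ m) (h12 : k₁ < k₂) (h23 : k₂ < k₃) (hz : z ∈ A0 m k₁ k₂ k₃) :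
    W z (k₃ * (m + 1) + 1) = lab m 0 := by
  show W z (k₃ * (m + 1) + 0 + 1) = lab m 0
  have h := A0_w3 hm h12 h23 hz (j := 0) (by omega)
  rw [h, Equiv.Perm.mul_apply]
  have h0 : (Equiv.swap (1 : Fin (m + 1)) (Fin.last m)) ⟨0, by omega⟩ = ⟨0, by omega⟩ := by
    apply Equiv.swap_apply_of_ne_of_ne
    · intro h'
      have := congrArg Fin.val h'
      rw [one_val hm] at this
      simp at this
    · intro h'
      have := congrArg Fin.val h'
      simp at this; omega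
  rw [h0]
  have h1 : (Equiv.swap (0 : Fin (m + 1)) 1 ⟨0, by omega⟩ : Fin (m + 1)) = 1 := by
    apply Fin.ext
    rw [swap01_0 hm, one_val hm]
  rw [h1, Fin.succAbove_of_castSucc_lt]
  · apply Fin.ext
    rw [lab0, Fin.val_castSucc, one_val hm]
  · rw [Fin.lt_def, Fin.val_castSucc, Fin.val_castSucc, one_val hm, Fin.val_last]
    omega

lemma A0_d32 (hm : 2 ≤ m) (h12 : k₁ < k₂) (h23 : k₂ < k₃) (hz : z ∈ A0 m k₁ k₂ k₃) :
    W z (k₃ * (m + 1) + 1 + 1) = lab m 3 := by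
  have h := A0_w3 hm h12 h23 hz (j := 1) (by omega)
  rw [h, Equiv.Perm.mul_apply, fin1 hm, Equiv.swap_apply_left, swap_last hm,
    Fin.succAbove_of_le_castSucc _ _ le_rfl, Fin.succ_last]
  rfl

end values

end Pool.Agent.RdvTour
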