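import Pool.Agent.Lib.RdvTour.Defs

open MeasureTheory
open scoped ENNReal

namespace Pool.Agent.RdvTour

/-- `1` if the paths do not meet on the first `t` days, else `0`. -/
noncomputable def nt {L : Type*} (t : ℕ) (u v : ℕ → L) : ℝ :=
  open Classical in if ∀ d < t, u d ≠ v d then 1 else 0

lemma nt_nonneg {L : Type*} (t : ℕ) (u v : ℕ → L) : 0 ≤ nt t u v := by
  unfold nt; split_ifs <;> norm_num

lemma nt_le_one {L : Type*} (t : ℕ) (u v : ℕ → L) : nt t u v ≤ 1 := by
  unfold nt; split_ifs <;> norm_num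

lemma meetDay_eq_tsum {L : Type*} (u v : ℕ → L) :
    meetDay u v = ∑' t : ℕ, ENNReal.ofReal (nt t u v) := by
  classical
  by_cases h : ∃ t, u t = v t
  · have hf := Nat.find_spec h
    have hmin : ∀ d < Nat.find h, u d ≠ v d := fun d hd => Nat.find_min h hd
    have h1 : meetDay u v = (Nat.find h : ℝ≥0∞) + 1 := by
      unfold meetDay
      apply le_antisymm
      · exact iInf₂_le (Nat.find h) hf
      · refine le_iInf₂ fun t ht => ?_
        have : Nat.find h ≤ t := Nat.find_le ht
        gcongr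
    have h2 : ∀ t, ENNReal.ofReal (nt t u v) = if t ∈ Finset.range (Nat.find h + 1) then 1 else 0 := by
      intro t
      unfold nt
      by_cases ht : t ≤ Nat.find h
      · rw [if_pos (fun d hd => hmin d (lt_of_lt_of_le hd ht)),
          if_pos (Finset.mem_range.2 (Nat.lt_succ_of_le ht))]
        simp
      · have ht' : Nat.find h < t := not_le.1 ht
        rw [if_neg (fun hall => hall _ ht' hf),
          if_neg (fun hmem => ht (Nat.le_of_lt_succ (Finset.mem_range.1 hmem)))]
        simp
    rw [h1]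
    simp_rw [h2]
    rw [tsum_eq_sum (s := Finset.range (Nat.find h + 1)) (by intro b hb; rw [if_neg hb])]
    rw [Finset.sum_congr rfl (g := fun _ => (1 : ℝ≥0∞)) (by intro x hx; rw [if_pos hx])]
    simp
  · have h' : ∀ t, u t ≠ v t := fun t ht => h ⟨t, ht⟩
    have h1 : meetDay u v = ⊤ := by
      unfold meetDay
      simp [h']
    have h2 : ∀ t, ENNReal.ofReal (nt t u v) = 1 := by
      intro t
      unfold nt
      rw [if_pos (fun d _ => h' d)]
      simp
    rw [h1]
    simp_rw [h2]
    exact (ENNReal.tsum_const_eq_top_of_ne_zero one_ne_zero).symm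

lemma lt_meetDay_iff {L : Type*} (u v : ℕ → L) (t : ℕ) :
    (t : ℝ≥0∞) < meetDay u v ↔ ∀ d < t, u d ≠ v d := by
  constructor
  · intro h d hd he
    have h1 : meetDay u v ≤ (d : ℝ≥0∞) + 1 := iInf₂_le d he
    have h2 : ((d : ℝ≥0∞) + 1) ≤ (t : ℝ≥0∞) := by exact_mod_cast hd
    exact absurd (h.trans_le (h1.trans h2)) (lt_irrefl _)
  · intro h
    have h1 : (t : ℝ≥0∞) + 1 ≤ meetDay u v := by
      refine le_iInf₂ fun d hd => ?_
      have h2 : t ≤ d := by
        by_contra hcon
        exact h d (not_le.1 hcon) hd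
      have h3 : (t : ℝ≥0∞) ≤ (d : ℝ≥0∞) := by exact_mod_cast h2
      gcongr
    refine lt_of_lt_of_le ?_ h1
    exact ENNReal.lt_add_right (ENNReal.natCast_ne_top t) one_ne_zero

/-- days before `t` only matter -/
lemma nt_congr {L : Type*} {t : ℕ} {u v u' v' : ℕ → L} (hu : ∀ d < t, u d = u' d)
    (hv : ∀ d < t, v d = v' d) : nt t u v = nt t u' v' := by
  classical
  unfold nt
  have : (∀ d < t, u d ≠ v d) ↔ (∀ d < t, u' d ≠ v' d) := by
    constructor
    · intro h d hd; rw [← hu d hd, ← hv d hd]; exact h d hd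
    · intro h d hd; rw [hu d hd, hv d hd]; exact h d hd
  simp only [this]

/-- simultaneous permutation of the first `t` days -/
lemma nt_comp_perm {L : Type*} {t : ℕ} {u v : ℕ → L} (e : Equiv.Perm ℕ)
    (he : ∀ d, d < t ↔ e d < t) : nt t (u ∘ e) (v ∘ e) = nt t u v := by
  classical
  unfold nt
  have : (∀ d < t, (u ∘ e) d ≠ (v ∘ e) d) ↔ (∀ d < t, u d ≠ v d) := by
    constructor
    · intro h d hd
      have := h (e.symm d) ((he _).2 (by simpa using hd))
      simpa using this
    · intro h d hd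
      exact h (e d) ((he d).1 hd)
  simp only [this]

end Pool.Agent.RdvTour
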