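import Pool.Agent.Lib.RdvTour.Base

open MeasureTheory
open scoped ENNReal

namespace Pool.Agent.RdvTour

variable {m : ℕ}

/-- the indicator of no meeting on the first `t` days -/
noncomputable def FF (σ₁ σ₂ : Equiv.Perm (Fin (m + 2))) (t : ℕ) (z z' : Seed m) : ℝ :=
  nt t (fun d => σ₁ (W z d)) (fun d => σ₂ (W z' d))

/-- first day of block `k` -/
def dd (m k : ℕ) : ℕ := k * (m + 1) + 1

lemma dd_lt {k k' : ℕ} (h : k < k') : dd m k + (m + 1) ≤ dd m k' := by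
  unfold dd
  have : (k + 1) * (m + 1) ≤ k' * (m + 1) := Nat.mul_le_mul_right _ h
  have h2 : (k + 1) * (m + 1) = k * (m + 1) + (m + 1) := by ring
  omega

lemma dbl_eq_alt {Ω : Type*} (S : Ω → Ω) (F : Ω → Ω → ℝ) (z z' : Ω) :
    dbl S F z z' = alt (fun s s' => F (cond s (S z) z) (cond s' (S z') z')) := rfl

lemma T3_eq (hm : 2 ≤ m) {k₁ k₂ k₃ t : ℕ} (h12 : k₁ < k₂) (h23 : k₂ < k₃)
    (ht : dd m k₃ < t) (σ₁ σ₂ : Equiv.Perm (Fin (m + 2))) (z z' : Seed m) :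
    dbl (SS k₁) (dbl (SS k₂) (dbl (SS k₃) (FF σ₁ σ₂ t))) z z' =
      rr (dd m k₁) (dd m k₂) (dd m k₃) t (fun d => σ₁ (W z d)) (fun d => σ₂ (W z' d)) *
      alt (kk True (σ₁ (W z (dd m k₁))) (σ₁ (W z (dd m k₁ + 1)))
        (σ₂ (W z' (dd m k₁))) (σ₂ (W z' (dd m k₁ + 1)))) *
      alt (kk True (σ₁ (W z (dd m k₂))) (σ₁ (W z (dd m k₂ + 1)))
        (σ₂ (W z' (dd m k₂))) (σ₂ (W z' (dd m k₂ + 1)))) *
      alt (kk (dd m k₃ + 1 < t) (σ₁ (W z (dd m k₃))) (σ₁ (W z (dd m k₃ + 1)))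
        (σ₂ (W z' (dd m k₃))) (σ₂ (W z' (dd m k₃ + 1)))) := by
  have hD12 := dd_lt (m := m) h12
  have hD23 := dd_lt (m := m) h23
  have key : ∀ s₁ s₁' s₂ s₂' s₃ s₃' : Bool,
      FF σ₁ σ₂ t
        (cond s₃ (SS k₃ (cond s₂ (SS k₂ (cond s₁ (SS k₁ z) z)) (cond s₁ (SS k₁ z) z)))
          (cond s₂ (SS k₂ (cond s₁ (SS k₁ z) z)) (cond s₁ (SS k₁ z) z)))
        (cond s₃' (SS k₃ (cond s₂' (SS k₂ (cond s₁' (SS k₁ z') z')) (cond s₁' (SS k₁ z') z')))
          (cond s₂' (SS k₂ (cond s₁' (SS k₁ z') z')) (cond s₁' (SS k₁ z') z'))) =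
      rr (dd m k₁) (dd m k₂) (dd m k₃) t (fun d => σ₁ (W z d)) (fun d => σ₂ (W z' d)) *
      kk True (σ₁ (W z (dd m k₁))) (σ₁ (W z (dd m k₁ + 1)))
        (σ₂ (W z' (dd m k₁))) (σ₂ (W z' (dd m k₁ + 1))) s₁ s₁' *
      kk True (σ₁ (W z (dd m k₂))) (σ₁ (W z (dd m k₂ + 1)))
        (σ₂ (W z' (dd m k₂))) (σ₂ (W z' (dd m k₂ + 1))) s₂ s₂' *
      kk (dd m k₃ + 1 < t) (σ₁ (W z (dd m k₃))) (σ₁ (W z (dd m k₃ + 1)))
        (σ₂ (W z' (dd m k₃))) (σ₂ (W z' (dd m k₃ + 1))) s₃ s₃' := by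
    intro s₁ s₁' s₂ s₂' s₃ s₃'
    unfold FF
    rw [W_cond hm k₃, W_cond hm k₂, W_cond hm k₁, W_cond hm k₃, W_cond hm k₂, W_cond hm k₁]
    exact nt_factor (D₁ := dd m k₁) (D₂ := dd m k₂) (D₃ := dd m k₃) (by omega) (by omega) ht (fun d => σ₁ (W z d)) (fun d => σ₂ (W z' d))
      s₁ s₂ s₃ s₁' s₂' s₃'
  have h1 : dbl (SS k₁) (dbl (SS k₂) (dbl (SS k₃) (FF σ₁ σ₂ t))) z z' =
      alt (fun s₁ s₁' => alt (fun s₂ s₂' => alt (fun s₃ s₃' =>
        FF σ₁ σ₂ t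
        (cond s₃ (SS k₃ (cond s₂ (SS k₂ (cond s₁ (SS k₁ z) z)) (cond s₁ (SS k₁ z) z)))
          (cond s₂ (SS k₂ (cond s₁ (SS k₁ z) z)) (cond s₁ (SS k₁ z) z)))
        (cond s₃' (SS k₃ (cond s₂' (SS k₂ (cond s₁' (SS k₁ z') z')) (cond s₁' (SS k₁ z') z')))
          (cond s₂' (SS k₂ (cond s₁' (SS k₁ z') z')) (cond s₁' (SS k₁ z') z')))))) := by
    rfl
  rw [h1]
  simp only [key]
  unfold alt
  ring

lemma lab_ne (hm : 2 ≤ m) {a b : Fin 4} (h : a ≠ b) : lab m a ≠ lab m b :=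
  fun h' => h (lab_inj hm h')

/-- The alternating sum is nonpositive on the base event. -/
lemma T3_le (hm : 2 ≤ m) {k₁ k₂ k₃ t : ℕ} (h12 : k₁ < k₂) (h23 : k₂ < k₃)
    (ht : dd m k₃ < t) (σ₁ σ₂ : Equiv.Perm (Fin (m + 2))) {z z' : Seed m}
    (hz : z ∈ A0 m k₁ k₂ k₃) (hz' : z' ∈ A0 m k₁ k₂ k₃) :
    dbl (SS k₁) (dbl (SS k₂) (dbl (SS k₃) (FF σ₁ σ₂ t))) z z' ≤ 0 := by
  have hD12 := dd_lt (m := m) h12
  have hD23 := dd_lt (m := m) h23
  have hd1 : 1 ≤ dd m k₁ := by unfold dd; omega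
  rw [T3_eq hm h12 h23 ht]
  rw [show W z (dd m k₁) = lab m 0 from A0_d11 h12 h23 hz,
    show W z' (dd m k₁) = lab m 0 from A0_d11 h12 h23 hz',
    show W z (dd m k₁ + 1) = lab m 1 from A0_d12 hm h12 h23 hz,
    show W z' (dd m k₁ + 1) = lab m 1 from A0_d12 hm h12 h23 hz',
    show W z (dd m k₂) = lab m 0 from A0_d21 hm h12 h23 hz,
    show W z' (dd m k₂) = lab m 0 from A0_d21 hm h12 h23 hz',
    show W z (dd m k₂ + 1) = lab m 2 from A0_d22 hm h12 h23 hz,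
    show W z' (dd m k₂ + 1) = lab m 2 from A0_d22 hm h12 h23 hz',
    show W z (dd m k₃) = lab m 0 from A0_d31 hm h12 h23 hz,
    show W z' (dd m k₃) = lab m 0 from A0_d31 hm h12 h23 hz',
    show W z (dd m k₃ + 1) = lab m 3 from A0_d32 hm h12 h23 hz,
    show W z' (dd m k₃ + 1) = lab m 3 from A0_d32 hm h12 h23 hz']
  by_cases hr : ∀ d < t, unm (dd m k₁) (dd m k₂) (dd m k₃) d → σ₁ (W z d) ≠ σ₂ (W z' d)
  · have hrr : rr (dd m k₁) (dd m k₂) (dd m k₃) t (fun d => σ₁ (W z d)) (fun d => σ₂ (W z' d)) = 1 := by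
      unfold rr
      rw [if_pos hr]
    rw [hrr, one_mul]
    have hy : σ₁ (lab m 2) ≠ σ₂ (lab m 2) := by
      have := hr 0 (by omega) ⟨by omega, by omega, by omega, by omega, by omega, by omega⟩
      rwa [A0_d0 hz, A0_d0 hz'] at this
    have hx : σ₁ (lab m 1) ≠ σ₂ (lab m 1) := by
      have := hr (dd m k₂ + 2) (by omega)
        ⟨by omega, by omega, by omega, by omega, by omega, by omega⟩
      rwa [show W z (dd m k₂ + 2) = lab m 1 from A0_d23 hm h12 h23 hz,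
        show W z' (dd m k₂ + 2) = lab m 1 from A0_d23 hm h12 h23 hz'] at this
    have hzz : σ₁ (lab m 3) ≠ σ₂ (lab m 3) := by
      have := hr (dd m k₁ + m) (by omega)
        ⟨by omega, by omega, by omega, by omega, by omega, by omega⟩
      have e : dd m k₁ + m = k₁ * (m + 1) + m + 1 := by unfold dd; ring
      rwa [e, A0_d1m h12 h23 hz, A0_d1m h12 h23 hz'] at this
    exact key_le σ₁.injective σ₂.injective (lab_ne hm (by decide)) (lab_ne hm (by decide))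
      (lab_ne hm (by decide)) (lab_ne hm (by decide)) (lab_ne hm (by decide))
      (lab_ne hm (by decide)) hx hy hzz _
  · have hrr : rr (dd m k₁) (dd m k₂) (dd m k₃) t (fun d => σ₁ (W z d)) (fun d => σ₂ (W z' d)) = 0 := by
      unfold rr
      rw [if_neg hr]
    rw [hrr, zero_mul, zero_mul, zero_mul]

/-- agreement of the words on the unmarked days and absence of the label `ℓ` there -/
lemma A0_unm (hm : 2 ≤ m) {k₁ k₂ k₃ : ℕ} (h12 : k₁ < k₂) (h23 : k₂ < k₃) {z z' : Seed m}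
    (hz : z ∈ A0 m k₁ k₂ k₃) (hz' : z' ∈ A0 m k₁ k₂ k₃) {d : ℕ} (hd : d < dd m k₃ + 2)
    (hu : unm (dd m k₁) (dd m k₂) (dd m k₃) d) : W z d = W z' d ∧ W z d ≠ lab m 0 := by
  obtain ⟨u1, u2, u3, u4, u5, u6⟩ := hu
  rcases d with _ | d
  · rw [A0_d0 hz, A0_d0 hz']
    exact ⟨rfl, lab_ne hm (by decide)⟩
  · obtain ⟨k, j, hj, rfl⟩ : ∃ q j, j < m + 1 ∧ d = q * (m + 1) + j :=
      ⟨d / (m + 1), d % (m + 1), Nat.mod_lt _ (Nat.succ_pos m), by
        rw [Nat.mul_comm]; exact (Nat.div_add_mod d (m + 1)).symm⟩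
    have hlt : k ≤ k₃ := by
      by_contra hcon
      have := dd_lt (m := m) (not_le.1 hcon)
      unfold dd at this hd
      omega
    rcases Nat.lt_trichotomy k k₁ with h | h | h
    · rw [A0_w0 h12 h23 hz h hj, A0_w0 h12 h23 hz' h hj]
      exact ⟨rfl, lab_ne (a := 2) (b := 0) hm (by decide)⟩
    · subst h
      rw [A0_w1 h12 h23 hz hj, A0_w1 h12 h23 hz' hj]
      refine ⟨rfl, fun h => ?_⟩
      have h' := congrArg Fin.val h
      rw [lab0, Fin.val_succ] at h'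
      simp at h'
      apply u1
      unfold dd
      omega
    · rcases Nat.lt_trichotomy k k₂ with h2 | h2 | h2
      · rw [A0_w12 h12 h23 hz h h2 hj, A0_w12 h12 h23 hz' h h2 hj]
        exact ⟨rfl, lab_ne (a := 3) (b := 0) hm (by decide)⟩
      · subst h2
        rw [A0_w2 h12 h23 hz hj, A0_w2 h12 h23 hz' hj]
        refine ⟨rfl, fun h => ?_⟩
        have hj2 : 2 ≤ j := by
          by_contra hcon
          have : j = 0 ∨ j = 1 := by omega
          rcases this with rfl | rfl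
          · exact u3 (by unfold dd; omega)
          · exact u4 (by unfold dd; omega)
        have h' := congrArg Fin.val h
        rw [lab0, Fin.val_castSucc, swap01_ge hm hj hj2] at h'
        simp at h'
        omega
      · rcases Nat.lt_or_ge k k₃ with h3 | h3
        · rw [A0_w23 hm h12 h23 hz h2 h3 hj, A0_w23 hm h12 h23 hz' h2 h3 hj]
          refine ⟨rfl, fun h => ?_⟩
          have h' := congrArg Fin.val h
          rw [lab0, Fin.val_castSucc, Fin.val_last] at h'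
          omega
        · have hk : k = k₃ := le_antisymm hlt h3
          subst hk
          exfalso
          have : j = 0 ∨ j = 1 := by
            unfold dd at hd; omega
          rcases this with rfl | rfl
          · exact u5 (by unfold dd; omega)
          · exact u6 (by unfold dd; omega)

/-- For `σ₁ = 1` and `σ₂` that fixes exactly the label `ℓ`, the alternating sum at
`t = D₃ + 2` is `-8`. -/
lemma T3_eq_neg (hm : 2 ≤ m) {k₁ k₂ k₃ : ℕ} (h12 : k₁ < k₂) (h23 : k₂ < k₃)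
    {π : Equiv.Perm (Fin (m + 2))} (hπ : ∀ a, π a = a ↔ a = lab m 0) {z z' : Seed m}
    (hz : z ∈ A0 m k₁ k₂ k₃) (hz' : z' ∈ A0 m k₁ k₂ k₃) :
    dbl (SS k₁) (dbl (SS k₂) (dbl (SS k₃) (FF 1 π (dd m k₃ + 2)))) z z' = -8 := by
  rw [T3_eq hm h12 h23 (by omega)]
  rw [show W z (dd m k₁) = lab m 0 from A0_d11 h12 h23 hz,
    show W z' (dd m k₁) = lab m 0 from A0_d11 h12 h23 hz',
    show W z (dd m k₁ + 1) = lab m 1 from A0_d12 hm h12 h23 hz,
    show W z' (dd m k₁ + 1) = lab m 1 from A0_d12 hm h12 h23 hz',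
    show W z (dd m k₂) = lab m 0 from A0_d21 hm h12 h23 hz,
    show W z' (dd m k₂) = lab m 0 from A0_d21 hm h12 h23 hz',
    show W z (dd m k₂ + 1) = lab m 2 from A0_d22 hm h12 h23 hz,
    show W z' (dd m k₂ + 1) = lab m 2 from A0_d22 hm h12 h23 hz',
    show W z (dd m k₃) = lab m 0 from A0_d31 hm h12 h23 hz,
    show W z' (dd m k₃) = lab m 0 from A0_d31 hm h12 h23 hz',
    show W z (dd m k₃ + 1) = lab m 3 from A0_d32 hm h12 h23 hz,
    show W z' (dd m k₃ + 1) = lab m 3 from A0_d32 hm h12 h23 hz']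
  have hrr : rr (dd m k₁) (dd m k₂) (dd m k₃) (dd m k₃ + 2)
      (fun d => (1 : Equiv.Perm (Fin (m + 2))) (W z d)) (fun d => π (W z' d)) = 1 := by
    unfold rr
    rw [if_pos]
    intro d hd hu h
    obtain ⟨h1, h2⟩ := A0_unm hm h12 h23 hz hz' hd hu
    have h' : W z d = π (W z' d) := h
    rw [← h1] at h'
    exact h2 ((hπ _).1 h'.symm)
  have hl : π (lab m 0) = lab m 0 := (hπ _).2 rfl
  have hl' : (1 : Equiv.Perm (Fin (m + 2))) (lab m 0) = π (lab m 0) := hl.symm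
  have hq : (dd m k₃ + 1 < dd m k₃ + 2) = True := by simp
  have hne : ∀ a : Fin 4, a ≠ 0 → (1 : Equiv.Perm (Fin (m + 2))) (lab m 0) ≠ π (lab m a) := by
    intro a ha h
    rw [Equiv.Perm.one_apply, ← hl] at h
    exact ha (lab_inj hm (π.injective h)).symm
  have hne' : ∀ a : Fin 4, a ≠ 0 → (1 : Equiv.Perm (Fin (m + 2))) (lab m a) ≠ π (lab m 0) := by
    intro a ha h
    rw [Equiv.Perm.one_apply, hl] at h
    exact ha (lab_inj hm h)
  rw [hrr, hq,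
    alt_kk_neg_true hl' (hne 1 (by decide)) (hne' 1 (by decide)),
    alt_kk_neg_true hl' (hne 2 (by decide)) (hne' 2 (by decide)),
    alt_kk_neg_true hl' (hne 3 (by decide)) (hne' 3 (by decide))]
  norm_num

end Pool.Agent.RdvTour
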