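import Mathlib

/-!
Definitions for the symmetric rendezvous problem on `n` locations (MP_5ce2f9_pr).

Day `t + 1` of the problem is time `t` here. A strategy is described by the probability law of
the infinite sequence of labels it makes a player use (a random rule that picks each label given
the earlier ones has such a law, and every law arises in this way).
-/

open MeasureTheory
open scoped ENNReal

namespace Pool.Agent.RdvTour

/-- The day (counted from `1`) of the first meeting of two players who are at `u t` and at `v t`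
on day `t + 1`; it is `∞` if they never meet. -/
noncomputable def meetDay {L : Type*} (u v : ℕ → L) : ℝ≥0∞ :=
  ⨅ (t : ℕ) (_ : u t = v t), ((t : ℝ≥0∞) + 1)

/-- The expected meeting time when both players use (independently) the strategy with law `μ` and
the private labellings `σ₁`, `σ₂` are independent and uniform. -/
noncomputable def expTime (n : ℕ) (μ : Measure (ℕ → Fin n)) : ℝ≥0∞ :=
  ∑ σ₁ : Equiv.Perm (Fin n), ∑ σ₂ : Equiv.Perm (Fin n),
    ((n.factorial : ℝ≥0∞)⁻¹ * (n.factorial : ℝ≥0∞)⁻¹) *
      ∫⁻ w₁, ∫⁻ w₂, meetDay (fun t => σ₁ (w₁ t)) (fun t => σ₂ (w₂ t)) ∂μ ∂μ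

/-- `P(T > t)` when both players use (independently) the strategy with law `μ` and the private
labellings `σ₁`, `σ₂` are independent and uniform. -/
noncomputable def survival (n : ℕ) (μ : Measure (ℕ → Fin n)) (t : ℕ) : ℝ≥0∞ :=
  ∑ σ₁ : Equiv.Perm (Fin n), ∑ σ₂ : Equiv.Perm (Fin n),
    ((n.factorial : ℝ≥0∞)⁻¹ * (n.factorial : ℝ≥0∞)⁻¹) *
      (μ.prod μ) {w | (t : ℝ≥0∞) < meetDay (fun d => σ₁ (w.1 d)) (fun d => σ₂ (w.2 d))}

/-- `R_n`: the infimum of the expected meeting time over all symmetric strategies. -/
noncomputable def value (n : ℕ) : ℝ≥0∞ :=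
  ⨅ (μ : Measure (ℕ → Fin n)) (_ : IsProbabilityMeasure μ), expTime n μ

end Pool.Agent.RdvTour
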