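import Pool.Agent.Lib.RdvTour.Core

open MeasureTheory
open scoped ENNReal

namespace Pool.Agent.RdvTour

lemma measurable_nt (n t : ℕ) (σ₁ σ₂ : Equiv.Perm (Fin n)) :
    Measurable (fun w : (ℕ → Fin n) × (ℕ → Fin n) =>
      nt t (fun d => σ₁ (w.1 d)) (fun d => σ₂ (w.2 d))) := by
  classical
  unfold nt
  refine Measurable.ite ?_ measurable_const measurable_const
  have : {w : (ℕ → Fin n) × (ℕ → Fin n) | ∀ d < t, σ₁ (w.1 d) ≠ σ₂ (w.2 d)} =
      ⋂ d : ℕ, ⋂ (_ : d < t), {w | σ₁ (w.1 d) ≠ σ₂ (w.2 d)} := by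
    ext w; simp
  rw [this]
  refine MeasurableSet.iInter fun d => MeasurableSet.iInter fun _ => ?_
  have h1 : Measurable (fun w : (ℕ → Fin n) × (ℕ → Fin n) => (w.1 d, w.2 d)) :=
    ((measurable_pi_apply d).comp measurable_fst).prodMk
      ((measurable_pi_apply d).comp measurable_snd)
  exact h1 (MeasurableSet.of_discrete (s := {y : Fin n × Fin n | σ₁ y.1 ≠ σ₂ y.2}))

lemma measurable_ofReal_nt (n t : ℕ) (σ₁ σ₂ : Equiv.Perm (Fin n)) :
    Measurable (fun w : (ℕ → Fin n) × (ℕ → Fin n) =>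
      ENNReal.ofReal (nt t (fun d => σ₁ (w.1 d)) (fun d => σ₂ (w.2 d)))) :=
  (measurable_nt n t σ₁ σ₂).ennreal_ofReal

lemma expTime_eq_tsum (n : ℕ) (ν : Measure (ℕ → Fin n)) [SFinite ν] :
    expTime n ν = ∑ σ₁ : Equiv.Perm (Fin n), ∑ σ₂ : Equiv.Perm (Fin n),
      ((n.factorial : ℝ≥0∞)⁻¹ * (n.factorial : ℝ≥0∞)⁻¹) *
      ∑' t : ℕ, ∫⁻ w₁, ∫⁻ w₂, ENNReal.ofReal
        (nt t (fun d => σ₁ (w₁ d)) (fun d => σ₂ (w₂ d))) ∂ν ∂ν := by
  unfold expTime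
  refine Finset.sum_congr rfl fun σ₁ _ => Finset.sum_congr rfl fun σ₂ _ => ?_
  congr 1
  have h1 : ∀ w₁ : ℕ → Fin n, ∫⁻ w₂, meetDay (fun t => σ₁ (w₁ t)) (fun t => σ₂ (w₂ t)) ∂ν =
      ∑' t : ℕ, ∫⁻ w₂, ENNReal.ofReal
        (nt t (fun d => σ₁ (w₁ d)) (fun d => σ₂ (w₂ d))) ∂ν := by
    intro w₁
    simp_rw [meetDay_eq_tsum]
    rw [lintegral_tsum]
    intro t
    exact ((measurable_ofReal_nt n t σ₁ σ₂).comp measurable_prodMk_left).aemeasurable
  simp_rw [h1]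
  rw [lintegral_tsum]
  intro t
  exact (Measurable.lintegral_prod_right' (measurable_ofReal_nt n t σ₁ σ₂)).aemeasurable

lemma survival_eq (n : ℕ) (ν : Measure (ℕ → Fin n)) [SFinite ν] (t : ℕ) :
    survival n ν t = ∑ σ₁ : Equiv.Perm (Fin n), ∑ σ₂ : Equiv.Perm (Fin n),
      ((n.factorial : ℝ≥0∞)⁻¹ * (n.factorial : ℝ≥0∞)⁻¹) *
      ∫⁻ w₁, ∫⁻ w₂, ENNReal.ofReal
        (nt t (fun d => σ₁ (w₁ d)) (fun d => σ₂ (w₂ d))) ∂ν ∂ν := by
  classical
  unfold survival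
  refine Finset.sum_congr rfl fun σ₁ _ => Finset.sum_congr rfl fun σ₂ _ => ?_
  congr 1
  rw [← lintegral_prod _ (measurable_ofReal_nt n t σ₁ σ₂).aemeasurable]
  have hset : MeasurableSet {w : (ℕ → Fin n) × (ℕ → Fin n) |
      (t : ℝ≥0∞) < meetDay (fun d => σ₁ (w.1 d)) (fun d => σ₂ (w.2 d))} := by
    have : {w : (ℕ → Fin n) × (ℕ → Fin n) |
      (t : ℝ≥0∞) < meetDay (fun d => σ₁ (w.1 d)) (fun d => σ₂ (w.2 d))} =
        {w | nt t (fun d => σ₁ (w.1 d)) (fun d => σ₂ (w.2 d)) = 1} := by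
      ext w
      show (t : ℝ≥0∞) < meetDay (fun d => σ₁ (w.1 d)) (fun d => σ₂ (w.2 d)) ↔
        nt t (fun d => σ₁ (w.1 d)) (fun d => σ₂ (w.2 d)) = 1
      rw [lt_meetDay_iff]
      unfold nt
      by_cases h : ∀ d < t, σ₁ (w.1 d) ≠ σ₂ (w.2 d)
      · rw [if_pos h]
        exact ⟨fun _ => rfl, fun _ => h⟩
      · rw [if_neg h]
        exact ⟨fun h' => absurd h' h, fun h' => absurd h' (by norm_num)⟩
    rw [this]
    exact (measurable_nt n t σ₁ σ₂) (measurableSet_singleton 1)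
  rw [← lintegral_indicator_one hset]
  refine lintegral_congr fun w => ?_
  by_cases h : (t : ℝ≥0∞) < meetDay (fun d => σ₁ (w.1 d)) (fun d => σ₂ (w.2 d))
  · rw [Set.indicator_of_mem (show w ∈ {w : (ℕ → Fin n) × (ℕ → Fin n) |
      (t : ℝ≥0∞) < meetDay (fun d => σ₁ (w.1 d)) (fun d => σ₂ (w.2 d))} from h)]
    rw [lt_meetDay_iff] at h
    unfold nt
    rw [if_pos h]
    simp
  · rw [Set.indicator_of_notMem (show w ∉ {w : (ℕ → Fin n) × (ℕ → Fin n) |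
      (t : ℝ≥0∞) < meetDay (fun d => σ₁ (w.1 d)) (fun d => σ₂ (w.2 d))} from h)]
    rw [lt_meetDay_iff] at h
    unfold nt
    rw [if_neg h]
    simp

section

variable {m : ℕ}

lemma BM_FF (σ₁ σ₂ : Equiv.Perm (Fin (m + 2))) (t : ℕ) :
    BM (fun z : Seed m × Seed m => FF σ₁ σ₂ t z.1 z.2) := by
  refine ⟨?_, 1, fun z => ?_⟩
  · exact (measurable_nt (m + 2) t σ₁ σ₂).comp
      ((measurable_W.comp measurable_fst).prodMk (measurable_W.comp measurable_snd))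
  · unfold FF
    rw [abs_of_nonneg (nt_nonneg _ _ _)]
    exact nt_le_one _ _ _

lemma FF_nonneg (σ₁ σ₂ : Equiv.Perm (Fin (m + 2))) (t : ℕ) (z z' : Seed m) :
    0 ≤ FF σ₁ σ₂ t z z' := nt_nonneg _ _ _

/-- law of the words when the seed has density `H` -/
noncomputable def tilt (m : ℕ) (D : Measure (ℕ → Bool)) (H : Seed m → ℝ) :
    Measure (ℕ → Fin (m + 2)) :=
  ((seedLaw m D).withDensity (fun z => ENNReal.ofReal (H z))).map W

lemma tilt_one (m : ℕ) (D : Measure (ℕ → Bool)) : tilt m D (fun _ => 1) = tourLaw m D := by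
  unfold tilt
  simp only [ENNReal.ofReal_one]
  rw [tourLaw_eq]
  congr 1
  exact withDensity_one

lemma isProb_tilt (m : ℕ) (D : Measure (ℕ → Bool)) [IsProbabilityMeasure D] {H : Seed m → ℝ}
    (hH : BM H) (h0 : ∀ z, 0 ≤ H z) (h1 : ∫ z, H z ∂(seedLaw m D) = 1) :
    IsProbabilityMeasure (tilt m D H) := by
  unfold tilt
  have : IsProbabilityMeasure
      ((seedLaw m D).withDensity (fun z => ENNReal.ofReal (H z))) := by
    constructor
    rw [withDensity_apply _ MeasurableSet.univ, Measure.restrict_univ,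
      ← ofReal_integral_eq_lintegral_ofReal (hH.integrable _)
        (Filter.Eventually.of_forall h0), h1, ENNReal.ofReal_one]
  exact Measure.isProbabilityMeasure_map measurable_W.aemeasurable

lemma lintegral_tilt (m : ℕ) (D : Measure (ℕ → Bool)) {H : Seed m → ℝ}
    (hH : BM H) {f : (ℕ → Fin (m + 2)) → ℝ≥0∞} (hf : Measurable f) :
    ∫⁻ w, f w ∂(tilt m D H) = ∫⁻ z, ENNReal.ofReal (H z) * f (W z) ∂(seedLaw m D) := by
  unfold tilt
  rw [lintegral_map hf measurable_W]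
  exact lintegral_withDensity_eq_lintegral_mul (seedLaw m D)
    hH.1.ennreal_ofReal (hf.comp measurable_W)

lemma lintegral_nt_tilt (m : ℕ) (D : Measure (ℕ → Bool)) [IsProbabilityMeasure D]
    {H : Seed m → ℝ} (hH : BM H) (h0 : ∀ z, 0 ≤ H z) (h1 : ∫ z, H z ∂(seedLaw m D) = 1)
    (σ₁ σ₂ : Equiv.Perm (Fin (m + 2))) (t : ℕ) :
    ∫⁻ w₁, ∫⁻ w₂, ENNReal.ofReal (nt t (fun d => σ₁ (w₁ d)) (fun d => σ₂ (w₂ d)))
      ∂(tilt m D H) ∂(tilt m D H) =
      ENNReal.ofReal (JJ (seedLaw m D) (FF σ₁ σ₂ t) H H) := by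
  have hp := isProb_tilt m D hH h0 h1
  have hmeas := measurable_ofReal_nt (m + 2) t σ₁ σ₂
  rw [lintegral_tilt m D hH (Measurable.lintegral_prod_right' hmeas)]
  have e1 : ∀ z : Seed m, ENNReal.ofReal (H z) *
      ∫⁻ w₂, ENNReal.ofReal (nt t (fun d => σ₁ (W z d)) (fun d => σ₂ (w₂ d))) ∂(tilt m D H) =
      ∫⁻ z', ENNReal.ofReal (FF σ₁ σ₂ t z z' * (H z * H z')) ∂(seedLaw m D) := by
    intro z
    have hm1 : Measurable (fun w₂ : ℕ → Fin (m + 2) =>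
        ENNReal.ofReal (nt t (fun d => σ₁ (W z d)) (fun d => σ₂ (w₂ d)))) :=
      hmeas.comp measurable_prodMk_left
    rw [lintegral_tilt m D hH hm1, ← lintegral_const_mul' _ _ ENNReal.ofReal_ne_top]
    refine lintegral_congr fun z' => ?_
    have : FF σ₁ σ₂ t z z' = nt t (fun d => σ₁ (W z d)) (fun d => σ₂ (W z' d)) := rfl
    rw [this, mul_comm (nt t _ _), mul_assoc, ENNReal.ofReal_mul (h0 z), ENNReal.ofReal_mul (h0 z')]
  simp only [] at e1 ⊢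
  rw [lintegral_congr e1]
  have hint := ((BM_FF σ₁ σ₂ t).integrand hH hH)
  unfold JJ
  rw [ofReal_integral_eq_lintegral_ofReal (hint.integrable _)
    (Filter.Eventually.of_forall fun z =>
      mul_nonneg (FF_nonneg _ _ _ _ _) (mul_nonneg (h0 _) (h0 _))),
    lintegral_prod _ hint.1.ennreal_ofReal.aemeasurable]

/-- the expected meeting time as a series -/
lemma expTime_tilt (m : ℕ) (D : Measure (ℕ → Bool)) [IsProbabilityMeasure D]
    {H : Seed m → ℝ} (hH : BM H) (h0 : ∀ z, 0 ≤ H z) (h1 : ∫ z, H z ∂(seedLaw m D) = 1) :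
    expTime (m + 2) (tilt m D H) =
      ∑' p : Equiv.Perm (Fin (m + 2)) × Equiv.Perm (Fin (m + 2)) × ℕ,
        (((m + 2).factorial : ℝ≥0∞)⁻¹ * ((m + 2).factorial : ℝ≥0∞)⁻¹) *
          ENNReal.ofReal (JJ (seedLaw m D) (FF p.1 p.2.1 p.2.2) H H) := by
  have hp := isProb_tilt m D hH h0 h1
  rw [expTime_eq_tsum, ENNReal.tsum_prod', tsum_fintype]
  refine Finset.sum_congr rfl fun σ₁ _ => ?_
  rw [ENNReal.tsum_prod', tsum_fintype]
  refine Finset.sum_congr rfl fun σ₂ _ => ?_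
  rw [← ENNReal.tsum_mul_left]
  refine tsum_congr fun t => ?_
  rw [lintegral_nt_tilt m D hH h0 h1]

end

end Pool.Agent.RdvTour
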