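import Pool.Agent.Lib.RdvTour.Perturb

open MeasureTheory
open scoped ENNReal

namespace Pool.Agent.RdvTour

lemma uniform_singleton {α : Type*} [Fintype α] [MeasurableSpace α] [DiscreteMeasurableSpace α]
    (a : α) : uniform α {a} = (Fintype.card α : ℝ≥0∞)⁻¹ := by
  unfold uniform
  rw [Measure.smul_apply, Measure.count_singleton, smul_eq_mul, mul_one]

lemma uniform_singleton_ne_zero {α : Type*} [Fintype α] [MeasurableSpace α]
    [DiscreteMeasurableSpace α] (a : α) : uniform α {a} ≠ 0 := by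
  rw [uniform_singleton]
  exact ENNReal.inv_ne_zero.2 (ENNReal.natCast_ne_top _)

lemma value_le (n : ℕ) (μ : Measure (ℕ → Fin n)) [h : IsProbabilityMeasure μ] :
    value n ≤ expTime n μ := (iInf_le _ μ).trans (iInf_le _ h)

/-- The value of the game is finite. -/
theorem value_lt_top (m : ℕ) : value (m + 2) < ⊤ := by
  set μ : Measure (ℕ → Fin (m + 2)) := Measure.infinitePi fun _ : ℕ => uniform (Fin (m + 2)) with hμ
  set r : ℝ≥0∞ := 1 - (Fintype.card (Fin (m + 2)) : ℝ≥0∞)⁻¹ with hr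
  have hr1 : r < 1 := by
    refine ENNReal.sub_lt_self ENNReal.one_ne_top one_ne_zero ?_
    exact ENNReal.inv_ne_zero.2 (ENNReal.natCast_ne_top _)
  have hcompl : ∀ a : Fin (m + 2), uniform (Fin (m + 2)) {a}ᶜ = r := by
    intro a
    rw [prob_compl_eq_one_sub (MeasurableSet.of_discrete), uniform_singleton]
  have hkey : ∀ (σ₁ σ₂ : Equiv.Perm (Fin (m + 2))) (t : ℕ) (w₁ : ℕ → Fin (m + 2)),
      ∫⁻ w₂, ENNReal.ofReal (nt t (fun d => σ₁ (w₁ d)) (fun d => σ₂ (w₂ d))) ∂μ = r ^ t := by
    intro σ₁ σ₂ t w₁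
    have h1 : ∀ w₂ : ℕ → Fin (m + 2),
        ENNReal.ofReal (nt t (fun d => σ₁ (w₁ d)) (fun d => σ₂ (w₂ d))) =
        (Set.pi (Finset.range t : Set ℕ) (fun d => ({σ₂.symm (σ₁ (w₁ d))}ᶜ : Set (Fin (m + 2))))).indicator
          (fun _ => 1) w₂ := by
      intro w₂
      by_cases h : ∀ d < t, σ₁ (w₁ d) ≠ σ₂ (w₂ d)
      · have hmem : w₂ ∈ Set.pi (Finset.range t : Set ℕ)
            (fun d => ({σ₂.symm (σ₁ (w₁ d))}ᶜ : Set (Fin (m + 2)))) := by
          intro d hd
          have hd' : d < t := by simpa using hd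
          intro h2
          have h3 : w₂ d = σ₂.symm (σ₁ (w₁ d)) := h2
          apply h d hd'
          rw [h3, Equiv.apply_symm_apply]
        rw [Set.indicator_of_mem hmem]
        unfold nt
        rw [if_pos h, ENNReal.ofReal_one]
      · have hmem : w₂ ∉ Set.pi (Finset.range t : Set ℕ)
            (fun d => ({σ₂.symm (σ₁ (w₁ d))}ᶜ : Set (Fin (m + 2)))) := by
          intro hall
          apply h
          intro d hd h3
          have := hall d (by simpa using hd)
          apply this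
          show w₂ d = σ₂.symm (σ₁ (w₁ d))
          rw [h3, Equiv.symm_apply_apply]
        rw [Set.indicator_of_notMem hmem]
        unfold nt
        rw [if_neg h, ENNReal.ofReal_zero]
    rw [lintegral_congr h1, lintegral_indicator_const
      (MeasurableSet.pi (Set.to_countable _) fun i _ => MeasurableSet.of_discrete), one_mul, hμ,
      Measure.infinitePi_pi _ (fun i _ => MeasurableSet.of_discrete)]
    simp only [hcompl]
    rw [Finset.prod_const, Finset.card_range]
  have hexp : expTime (m + 2) μ < ⊤ := by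
    rw [expTime_eq_tsum]
    refine ENNReal.sum_lt_top.2 fun σ₁ _ => ENNReal.sum_lt_top.2 fun σ₂ _ => ?_
    refine ENNReal.mul_lt_top (ENNReal.mul_lt_top ?_ ?_) ?_
    · exact ENNReal.inv_lt_top.2 (by exact_mod_cast Nat.factorial_pos (m + 2))
    · exact ENNReal.inv_lt_top.2 (by exact_mod_cast Nat.factorial_pos (m + 2))
    · simp only [hkey]
      simp only [lintegral_const, measure_univ, mul_one]
      rw [ENNReal.tsum_geometric]
      refine ENNReal.inv_lt_top.2 ?_
      exact tsub_pos_of_lt hr1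
  exact lt_of_le_of_lt (value_le (m + 2) μ) hexp

/-- the strategy never tours from some day on -/
def finSupp (K : Finset ℕ) : ℕ → Bool := fun i => decide (i ∈ K)

/-- the first three tours are in blocks `k₁ < k₂ < k₃` -/
def pat (k₁ k₂ k₃ : ℕ) : Set (ℕ → Bool) :=
  {b | ∀ i ≤ k₃, b i = decide (i = k₁ ∨ i = k₂ ∨ i = k₃)}

lemma exists_pat (b : ℕ → Bool) :
    (∃ K : Finset ℕ, b = finSupp K) ∨ ∃ k₁ k₂ k₃, k₁ < k₂ ∧ k₂ < k₃ ∧ b ∈ pat k₁ k₂ k₃ := by
  classical
  by_cases h : ∀ N, ∃ k, N ≤ k ∧ b k = true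
  · right
    obtain ⟨h1, h1'⟩ := Nat.find_spec (h 0)
    have h1m := fun i => Nat.find_min (h 0) (m := i)
    set k₁ := Nat.find (h 0)
    obtain ⟨h2, h2'⟩ := Nat.find_spec (h (k₁ + 1))
    have h2m := fun i => Nat.find_min (h (k₁ + 1)) (m := i)
    set k₂ := Nat.find (h (k₁ + 1))
    obtain ⟨h3, h3'⟩ := Nat.find_spec (h (k₂ + 1))
    have h3m := fun i => Nat.find_min (h (k₂ + 1)) (m := i)
    set k₃ := Nat.find (h (k₂ + 1))
    refine ⟨k₁, k₂, k₃, by omega, by omega, fun i hi => ?_⟩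
    by_cases hb : b i = true
    · rw [hb]
      symm
      rw [decide_eq_true_iff]
      by_contra hcon
      have hcon' : i ≠ k₁ ∧ i ≠ k₂ ∧ i ≠ k₃ := by tauto
      rcases Nat.lt_or_ge i k₁ with hi1 | hi1
      · exact h1m i hi1 ⟨Nat.zero_le _, hb⟩
      rcases Nat.lt_or_ge i k₂ with hi2 | hi2
      · exact h2m i hi2 ⟨by omega, hb⟩
      exact h3m i (by omega) ⟨by omega, hb⟩
    · have hb' : b i = false := by simpa using hb
      rw [hb']
      symm
      rw [decide_eq_false_iff_not]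
      rintro (rfl | rfl | rfl)
      · exact hb h1'
      · exact hb h2'
      · exact hb h3'
  · left
    push Not at h
    obtain ⟨N, hN⟩ := h
    refine ⟨(Finset.range N).filter (fun i => b i = true), ?_⟩
    funext i
    unfold finSupp
    by_cases hb : b i = true
    · rw [hb]
      symm
      rw [decide_eq_true_iff, Finset.mem_filter, Finset.mem_range]
      refine ⟨?_, hb⟩
      by_contra hcon
      exact hN i (not_lt.1 hcon) hb
    · have hb' : b i = false := by simpa using hb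
      rw [hb']
      symm
      rw [decide_eq_false_iff_not, Finset.mem_filter]
      exact fun hh => hb hh.2

lemma measurableSet_pat (k₁ k₂ k₃ : ℕ) : MeasurableSet (pat k₁ k₂ k₃) := by
  have : pat k₁ k₂ k₃ = ⋂ i : ℕ, ⋂ (_ : i ≤ k₃),
      {b : ℕ → Bool | b i = decide (i = k₁ ∨ i = k₂ ∨ i = k₃)} := by
    ext b
    simp [pat]
  rw [this]
  refine MeasurableSet.iInter fun i => MeasurableSet.iInter fun _ => ?_
  have h1 : Measurable (fun b : ℕ → Bool => b i) := measurable_pi_apply i
  exact h1 (MeasurableSet.of_discrete (s := {decide (i = k₁ ∨ i = k₂ ∨ i = k₃)}))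

/-- either finitely many tours with positive probability, or a pattern of positive probability -/
lemma exists_pos (D : Measure (ℕ → Bool)) [IsProbabilityMeasure D] :
    (∃ K : Finset ℕ, D {finSupp K} ≠ 0) ∨
      ∃ k₁ k₂ k₃, k₁ < k₂ ∧ k₂ < k₃ ∧ D (pat k₁ k₂ k₃) ≠ 0 := by
  by_contra hcon
  push Not at hcon
  obtain ⟨h1, h2⟩ := hcon
  have hcov : (Set.univ : Set (ℕ → Bool)) ⊆ (⋃ K : Finset ℕ, {finSupp K}) ∪
      (⋃ p : {p : ℕ × ℕ × ℕ // p.1 < p.2.1 ∧ p.2.1 < p.2.2}, pat p.1.1 p.1.2.1 p.1.2.2) := by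
    intro b _
    rcases exists_pat b with ⟨K, hK⟩ | ⟨k₁, k₂, k₃, ha, hb, hc⟩
    · left
      exact Set.mem_iUnion.2 ⟨K, hK⟩
    · right
      exact Set.mem_iUnion.2 ⟨⟨(k₁, k₂, k₃), ha, hb⟩, hc⟩
  have h3 : D Set.univ ≤ 0 := by
    refine (measure_mono hcov).trans ((measure_union_le _ _).trans ?_)
    rw [measure_iUnion_null h1, measure_iUnion_null (fun p => h2 _ _ _ p.2.1 p.2.2)]
    simp
  rw [measure_univ] at h3
  exact absurd h3 (by simp)

lemma seedLaw_box {m : ℕ} (D : Measure (ℕ → Bool)) [IsProbabilityMeasure D] (c : Fin (m + 2))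
    {B : Set (ℕ → Bool)} (hB : D B ≠ 0) (K : Finset ℕ) (e : ℕ → Equiv.Perm (Fin (m + 1))) :
    seedLaw m D (({c} : Set (Fin (m + 2))) ×ˢ (B ×ˢ (Set.pi (K : Set ℕ) fun i => {e i}))) ≠ 0 := by
  unfold seedLaw
  rw [Measure.prod_prod, Measure.prod_prod,
    Measure.infinitePi_pi _ (fun i _ => MeasurableSet.of_discrete)]
  refine mul_ne_zero (uniform_singleton_ne_zero c) (mul_ne_zero hB ?_)
  exact Finset.prod_ne_zero_iff.2 fun i _ => uniform_singleton_ne_zero _

lemma seedLaw_A0 {m : ℕ} (D : Measure (ℕ → Bool)) [IsProbabilityMeasure D] {k₁ k₂ k₃ : ℕ}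
    (h12 : k₁ < k₂) (h23 : k₂ < k₃) (hB : D (pat k₁ k₂ k₃) ≠ 0) :
    seedLaw m D (A0 m k₁ k₂ k₃) ≠ 0 := by
  have h := seedLaw_box (m := m) D 0 hB {k₁, k₂, k₃}
    (fun i => if i = k₁ then 1 else if i = k₂ then Equiv.swap 0 1 else
      Equiv.swap 0 1 * Equiv.swap 1 (Fin.last m))
  refine fun h0 => h (measure_mono_null ?_ h0)
  rintro ⟨c, b, r⟩ ⟨hc, hb, hr⟩
  simp only [Finset.coe_insert, Finset.coe_singleton, Set.mem_pi, Set.mem_insert_iff,
    Set.mem_singleton_iff] at hr hc
  have r1 := hr k₁ (by simp)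
  have r2 := hr k₂ (by simp)
  have r3 := hr k₃ (by simp)
  rw [if_pos rfl] at r1
  rw [if_neg (by omega), if_pos rfl] at r2
  rw [if_neg (by omega), if_neg (by omega)] at r3
  exact ⟨hc, hb, r1, r2, r3⟩

lemma word_congr {m : ℕ} {c : Fin (m + 2)} {b : ℕ → Bool}
    {r r' : ℕ → Equiv.Perm (Fin (m + 1))} (h : ∀ k, b k = true → r k = r' k) :
    word c b r = word c b r' := by
  have hs : ∀ k, start c b r k = start c b r' k := by
    intro k
    induction k with
    | zero => rfl
    | succ k ih =>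
      unfold start
      by_cases hb : b k = true
      · rw [if_pos hb, if_pos hb, ih, h k hb]
      · rw [if_neg hb, if_neg hb, ih]
  funext t
  rcases t with _ | t
  · rfl
  · by_cases hb : b (t / (m + 1)) = true
    · simp only [word, if_pos hb, hs, h _ hb]
    · simp only [word, if_neg hb, hs]

/-- finitely many tours with positive probability: the expected time is infinite -/
lemma expTime_eq_top {m : ℕ} (D : Measure (ℕ → Bool)) [IsProbabilityMeasure D] (K : Finset ℕ)
    (hK : D {finSupp K} ≠ 0) : expTime (m + 2) (tourLaw m D) = ⊤ := by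
  have hP : IsProbabilityMeasure (tourLaw m D) := by
    rw [tourLaw_eq]
    exact Measure.isProbabilityMeasure_map measurable_W.aemeasurable
  set u : ℕ → Fin (m + 2) := word 0 (finSupp K) (fun _ => 1) with hu
  have hμu : tourLaw m D {u} ≠ 0 := by
    rw [tourLaw_eq, Measure.map_apply measurable_W (measurableSet_singleton u)]
    have h := seedLaw_box (m := m) D 0 hK K (fun _ => 1)
    refine fun h0 => h (measure_mono_null ?_ h0)
    rintro ⟨c, b, r⟩ ⟨hc, hb, hr⟩
    have hc' : c = 0 := hc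
    have hb' : b = finSupp K := hb
    show W (c, b, r) = u
    unfold W
    simp only
    rw [hc', hb', hu]
    refine word_congr fun k hk => ?_
    have hkK : k ∈ K := by
      unfold finSupp at hk
      simpa using hk
    exact hr k hkK
  have hne : ∀ a : Fin (m + 2), finRotate (m + 2) a ≠ a := by
    intro a h
    have h1 := congrArg Fin.val h
    rcases Nat.lt_or_ge a.val (m + 1) with h2 | h2
    · have := coe_finRotate_of_ne_last (n := m + 1) (i := a) (by
        intro h3
        have := congrArg Fin.val h3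
        rw [Fin.val_last] at this
        omega)
      change ((finRotate (m + 2) a : Fin (m + 2)) : ℕ) = _ at this
      omega
    · have h3 : a = Fin.last (m + 1) := by
        apply Fin.ext
        rw [Fin.val_last]
        have := a.isLt
        omega
      rw [h3, finRotate_last] at h1
      rw [Fin.val_last] at h1
      simp at h1
  have hmeas : Measurable (fun w : (ℕ → Fin (m + 2)) × (ℕ → Fin (m + 2)) =>
      meetDay (fun t => (1 : Equiv.Perm (Fin (m + 2))) (w.1 t))
        (fun t => finRotate (m + 2) (w.2 t))) := by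
    simp_rw [meetDay_eq_tsum]
    exact Measurable.ennreal_tsum fun t => measurable_ofReal_nt (m + 2) t 1 (finRotate (m + 2))
  have hinner : ∫⁻ w₂, meetDay (fun t => (1 : Equiv.Perm (Fin (m + 2))) (u t))
      (fun t => finRotate (m + 2) (w₂ t)) ∂(tourLaw m D) = ⊤ := by
    refine lintegral_eq_top_of_measure_eq_top_ne_zero
      (hmeas.comp measurable_prodMk_left).aemeasurable ?_
    refine fun h0 => hμu (measure_mono_null ?_ h0)
    intro w hw
    have hw' : w = u := hw
    subst hw'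
    show meetDay _ _ = ⊤
    unfold meetDay
    simp only [iInf_eq_top]
    intro t ht
    exact absurd ht.symm (hne _)
  have houter : ∫⁻ w₁, ∫⁻ w₂, meetDay (fun t => (1 : Equiv.Perm (Fin (m + 2))) (w₁ t))
      (fun t => finRotate (m + 2) (w₂ t)) ∂(tourLaw m D) ∂(tourLaw m D) = ⊤ := by
    refine lintegral_eq_top_of_measure_eq_top_ne_zero
      (Measurable.lintegral_prod_right' hmeas).aemeasurable ?_
    refine fun h0 => hμu (measure_mono_null ?_ h0)
    intro w hw
    have hw' : w = u := hw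
    subst hw'
    exact hinner
  have hc0 : (((m + 2).factorial : ℝ≥0∞)⁻¹ * ((m + 2).factorial : ℝ≥0∞)⁻¹) ≠ 0 := by
    simp
  set X : Equiv.Perm (Fin (m + 2)) → Equiv.Perm (Fin (m + 2)) → ℝ≥0∞ := fun σ₁ σ₂ =>
    (((m + 2).factorial : ℝ≥0∞)⁻¹ * ((m + 2).factorial : ℝ≥0∞)⁻¹) *
      ∫⁻ w₁, ∫⁻ w₂, meetDay (fun t => σ₁ (w₁ t)) (fun t => σ₂ (w₂ t))
        ∂(tourLaw m D) ∂(tourLaw m D) with hX
  have e : expTime (m + 2) (tourLaw m D) = ∑ σ₁, ∑ σ₂, X σ₁ σ₂ := rfl
  have hXt : X 1 (finRotate (m + 2)) = ⊤ := by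
    rw [hX]
    simp only
    rw [houter, ENNReal.mul_top hc0]
  rw [e, eq_top_iff, ← hXt]
  exact (Finset.single_le_sum (f := fun σ₂ => X 1 σ₂) (fun _ _ => zero_le)
    (Finset.mem_univ (finRotate (m + 2)))).trans
    (Finset.single_le_sum (f := fun σ₁ => ∑ σ₂, X σ₁ σ₂) (fun _ _ => zero_le)
      (Finset.mem_univ 1))

end Pool.Agent.RdvTour
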