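import Pool.Agent.Lib.RdvTour.Finite

open MeasureTheory
open scoped ENNReal

namespace Pool.Agent.RdvTour

lemma exists_fix_one {m : ℕ} (hm : 2 ≤ m) :
    ∃ π : Equiv.Perm (Fin (m + 2)), ∀ a, π a = a ↔ a = lab m 0 := by
  set ρ : Equiv.Perm (Fin (m + 2)) := finRotate (m + 2) with hρ
  have hval : ∀ a : Fin (m + 2), (a : ℕ) < m + 1 → ((ρ a : Fin (m + 2)) : ℕ) = a + 1 := by
    intro a ha
    have h := coe_finRotate_of_ne_last (n := m + 1) (i := a) (by
      intro h3
      have := congrArg Fin.val h3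
      rw [Fin.val_last] at this
      omega)
    exact h
  have hlast : ∀ a : Fin (m + 2), ¬ (a : ℕ) < m + 1 → ((ρ a : Fin (m + 2)) : ℕ) = 0 := by
    intro a ha
    have h3 : a = Fin.last (m + 1) := by
      apply Fin.ext
      rw [Fin.val_last]
      have := a.isLt
      omega
    rw [h3, hρ, finRotate_last]
    rfl
  have hne : ∀ a : Fin (m + 2), ρ a ≠ a := by
    intro a h
    have h1 := congrArg Fin.val h
    by_cases h2 : (a : ℕ) < m + 1
    · rw [hval a h2] at h1; omega
    · rw [hlast a h2] at h1; omega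
  have hl := lab0 (m := m)
  have hρl : ((ρ (lab m 0) : Fin (m + 2)) : ℕ) = 2 := by
    rw [hval _ (by omega), hl]
  have hρρl : ρ (ρ (lab m 0)) ≠ lab m 0 := by
    intro h
    have h1 := congrArg Fin.val h
    rw [hval _ (by omega), hρl, hl] at h1
    omega
  refine ⟨Equiv.swap (lab m 0) (ρ (lab m 0)) * ρ, fun a => ?_⟩
  rw [Equiv.Perm.mul_apply]
  constructor
  · intro h
    by_contra ha
    have h1 : ρ a ≠ ρ (lab m 0) := fun h2 => ha (ρ.injective h2)
    by_cases h2 : ρ a = lab m 0
    · rw [h2, Equiv.swap_apply_left] at h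
      rw [← h] at h2
      exact hρρl h2
    · rw [Equiv.swap_apply_of_ne_of_ne h2 h1] at h
      exact hne a h
  · rintro rfl
    rw [Equiv.swap_apply_right]

/-- No strategy which in each block of `n - 1` days either stays or visits the other locations in
random order is optimal for `n ≥ 4`; if its expected meeting time is finite, it is stochastically
dominated by a strategy with strictly smaller expected meeting time. -/
theorem main (m : ℕ) (hm : 2 ≤ m) (D : Measure (ℕ → Bool)) [IsProbabilityMeasure D] :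
    value (m + 2) < expTime (m + 2) (tourLaw m D) ∧
      (expTime (m + 2) (tourLaw m D) < ⊤ →
        ∃ ν : Measure (ℕ → Fin (m + 2)), IsProbabilityMeasure ν ∧
          (∀ t, survival (m + 2) ν t ≤ survival (m + 2) (tourLaw m D) t) ∧
          expTime (m + 2) ν < expTime (m + 2) (tourLaw m D)) := by
  by_cases hfin : expTime (m + 2) (tourLaw m D) = ⊤
  · rw [hfin]
    exact ⟨value_lt_top m, fun h => absurd h (lt_irrefl _)⟩
  · rcases exists_pos D with ⟨K, hK⟩ | ⟨k₁, k₂, k₃, h12, h23, hp⟩
    · exact absurd (expTime_eq_top D K hK) hfin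
    · obtain ⟨π, hπ⟩ := exists_fix_one hm
      obtain ⟨ν, hν, hdom, hlt⟩ := expTime_perturb D hm h12 h23 hπ (seedLaw_A0 D h12 h23 hp) hfin
      exact ⟨lt_of_le_of_lt (value_le (m + 2) ν) hlt, fun _ => ⟨ν, hν, hdom, hlt⟩⟩

end Pool.Agent.RdvTour
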