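import Pool.Agent.Lib.RdvTour.Expect

open MeasureTheory
open scoped ENNReal

namespace Pool.Agent.RdvTour

variable {m : ℕ}

lemma measurableSet_A0 (m k₁ k₂ k₃ : ℕ) : MeasurableSet (A0 m k₁ k₂ k₃) := by
  have h : A0 m k₁ k₂ k₃ = {z : Seed m | z.1 = 0} ∩
      ((⋂ i : ℕ, ⋂ (_ : i ≤ k₃), {z : Seed m | z.2.1 i = decide (i = k₁ ∨ i = k₂ ∨ i = k₃)}) ∩
      ({z : Seed m | z.2.2 k₁ = 1} ∩ ({z : Seed m | z.2.2 k₂ = Equiv.swap 0 1} ∩
      {z : Seed m | z.2.2 k₃ = Equiv.swap 0 1 * Equiv.swap 1 (Fin.last m)}))) := by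
    ext z
    simp only [A0, Set.mem_setOf_eq, Set.mem_inter_iff, Set.mem_iInter]
  rw [h]
  have hr : ∀ (k : ℕ) (e : Equiv.Perm (Fin (m + 1))), MeasurableSet {z : Seed m | z.2.2 k = e} := by
    intro k e
    have h1 : Measurable (fun z : Seed m => z.2.2 k) :=
      (measurable_pi_apply k).comp (measurable_snd.comp measurable_snd)
    exact h1 (MeasurableSet.of_discrete (s := {e}))
  have hb : ∀ (k : ℕ) (e : Bool), MeasurableSet {z : Seed m | z.2.1 k = e} := by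
    intro k e
    have h1 : Measurable (fun z : Seed m => z.2.1 k) :=
      (measurable_pi_apply k).comp (measurable_fst.comp measurable_snd)
    exact h1 (MeasurableSet.of_discrete (s := {e}))
  refine MeasurableSet.inter ?_ (MeasurableSet.inter ?_ ((hr _ _).inter ((hr _ _).inter (hr _ _))))
  · exact measurable_fst (MeasurableSet.of_discrete (s := {(0 : Fin (m + 2))}))
  · exact MeasurableSet.iInter fun i => MeasurableSet.iInter fun _ => hb i _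

/-- the indicator of the base event -/
noncomputable def ind (m k₁ k₂ k₃ : ℕ) : Seed m → ℝ := (A0 m k₁ k₂ k₃).indicator (fun _ => 1)

lemma BM_ind (m k₁ k₂ k₃ : ℕ) : BM (ind m k₁ k₂ k₃) := by
  refine ⟨measurable_const.indicator (measurableSet_A0 m k₁ k₂ k₃), 1, fun z => ?_⟩
  unfold ind
  by_cases h : z ∈ A0 m k₁ k₂ k₃
  · rw [Set.indicator_of_mem h]; simp
  · rw [Set.indicator_of_notMem h]; simp

lemma ind_abs (m k₁ k₂ k₃ : ℕ) (z : Seed m) : |ind m k₁ k₂ k₃ z| ≤ 1 := by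
  unfold ind
  by_cases h : z ∈ A0 m k₁ k₂ k₃
  · rw [Set.indicator_of_mem h]; simp
  · rw [Set.indicator_of_notMem h]; simp

/-- the perturbation -/
noncomputable def gg (m k₁ k₂ k₃ : ℕ) : Seed m → ℝ :=
  anti (SS k₃) (anti (SS k₂) (anti (SS k₁) (ind m k₁ k₂ k₃)))

section

variable {k₁ k₂ k₃ : ℕ} (D : Measure (ℕ → Bool)) [IsProbabilityMeasure D]

lemma BM_g1 : BM (anti (SS k₁) (ind m k₁ k₂ k₃)) :=
  (BM_ind m k₁ k₂ k₃).anti' (measurePreserving_SS (m := m) k₁ (Measure.dirac fun _ => true)).measurable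

lemma BM_g2 : BM (anti (SS k₂) (anti (SS k₁) (ind m k₁ k₂ k₃))) :=
  BM_g1.anti' (measurePreserving_SS (m := m) k₂ (Measure.dirac fun _ => true)).measurable

lemma BM_gg : BM (gg m k₁ k₂ k₃) :=
  BM_g2.anti' (measurePreserving_SS (m := m) k₃ (Measure.dirac fun _ => true)).measurable

lemma gg_abs (z : Seed m) : |gg m k₁ k₂ k₃ z| ≤ 8 := by
  have h1 := abs_anti_le (S := SS k₁) (ind_abs m k₁ k₂ k₃)
  have h2 := abs_anti_le (S := SS k₂) h1
  have h3 := abs_anti_le (S := SS k₃) h2 z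
  unfold gg
  linarith

lemma gg_SS3 (z : Seed m) : gg m k₁ k₂ k₃ (SS k₃ z) = - gg m k₁ k₂ k₃ z :=
  anti_comp_self (SS_SS k₃) _ z

lemma gg_SS2 (h23 : k₂ < k₃) (z : Seed m) : gg m k₁ k₂ k₃ (SS k₂ z) = - gg m k₁ k₂ k₃ z :=
  anti_comp_of_comm (fun z => SS_comm k₃ k₂ z (by omega)) (anti_comp_self (SS_SS k₂) _) z

omit [IsProbabilityMeasure D] in
lemma FF_SS_left (hm : 2 ≤ m) (σ₁ σ₂ : Equiv.Perm (Fin (m + 2))) {t k : ℕ} (ht : t ≤ dd m k)
    (z z' : Seed m) : FF σ₁ σ₂ t (SS k z) z' = FF σ₁ σ₂ t z z' := by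
  unfold FF
  refine nt_congr (fun d hd => ?_) (fun d _ => rfl)
  rw [W_SS hm, Function.comp_apply, Equiv.swap_apply_of_ne_of_ne]
  · unfold dd at ht; omega
  · unfold dd at ht; omega

omit [IsProbabilityMeasure D] in
lemma FF_SS_right (hm : 2 ≤ m) (σ₁ σ₂ : Equiv.Perm (Fin (m + 2))) {t k : ℕ} (ht : t ≤ dd m k)
    (z z' : Seed m) : FF σ₁ σ₂ t z (SS k z') = FF σ₁ σ₂ t z z' := by
  unfold FF
  refine nt_congr (fun d _ => rfl) (fun d hd => ?_)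
  rw [W_SS hm, Function.comp_apply, Equiv.swap_apply_of_ne_of_ne]
  · unfold dd at ht; omega
  · unfold dd at ht; omega

omit [IsProbabilityMeasure D] in
lemma FF_SS_both (hm : 2 ≤ m) (σ₁ σ₂ : Equiv.Perm (Fin (m + 2))) {t k : ℕ}
    (ht : dd m k + 1 < t) (z z' : Seed m) :
    FF σ₁ σ₂ t (SS k z) (SS k z') = FF σ₁ σ₂ t z z' := by
  unfold FF
  rw [W_SS hm, W_SS hm]
  refine nt_comp_perm (u := fun d => σ₁ (W z d)) (v := fun d => σ₂ (W z' d))
    (Equiv.swap (k * (m + 1) + 1) (k * (m + 1) + 2)) (fun d => ?_)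
  unfold dd at ht
  by_cases h1 : d = k * (m + 1) + 1
  · rw [h1, Equiv.swap_apply_left]
    constructor <;> intro <;> omega
  · by_cases h2 : d = k * (m + 1) + 2
    · rw [h2, Equiv.swap_apply_right]
      constructor <;> intro <;> omega
    · rw [Equiv.swap_apply_of_ne_of_ne h1 h2]

/-- the linear terms vanish -/
lemma JJ_g_one (hm : 2 ≤ m) (h23 : k₂ < k₃) (σ₁ σ₂ : Equiv.Perm (Fin (m + 2))) (t : ℕ) :
    JJ (seedLaw m D) (FF σ₁ σ₂ t) (gg m k₁ k₂ k₃) (fun _ => 1) = 0 := by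
  rcases Nat.lt_or_ge (dd m k₃) t with ht | ht
  · have hD := dd_lt (m := m) h23
    refine integral_eq_zero_of_anti (T := Prod.map (SS k₂) (SS k₂))
      ((measurePreserving_SS k₂ D).prod (measurePreserving_SS k₂ D)) ?_ ?_
    · rintro ⟨z, z'⟩
      simp only [Prod.map_apply, SS_SS]
    · rintro ⟨z, z'⟩
      simp only [Prod.map_apply]
      rw [FF_SS_both hm _ _ (by omega), gg_SS2 h23]
      ring
  · refine integral_eq_zero_of_anti (T := Prod.map (SS k₃) id)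
      ((measurePreserving_SS k₃ D).prod (MeasurePreserving.id _)) ?_ ?_
    · rintro ⟨z, z'⟩
      simp only [Prod.map_apply, SS_SS, id]
    · rintro ⟨z, z'⟩
      simp only [Prod.map_apply, id]
      rw [FF_SS_left hm _ _ ht, gg_SS3]
      ring

lemma JJ_one_g (hm : 2 ≤ m) (h23 : k₂ < k₃) (σ₁ σ₂ : Equiv.Perm (Fin (m + 2))) (t : ℕ) :
    JJ (seedLaw m D) (FF σ₁ σ₂ t) (fun _ => 1) (gg m k₁ k₂ k₃) = 0 := by
  rcases Nat.lt_or_ge (dd m k₃) t with ht | ht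
  · have hD := dd_lt (m := m) h23
    refine integral_eq_zero_of_anti (T := Prod.map (SS k₂) (SS k₂))
      ((measurePreserving_SS k₂ D).prod (measurePreserving_SS k₂ D)) ?_ ?_
    · rintro ⟨z, z'⟩
      simp only [Prod.map_apply, SS_SS]
    · rintro ⟨z, z'⟩
      simp only [Prod.map_apply]
      rw [FF_SS_both hm _ _ (by omega), gg_SS2 h23]
      ring
  · refine integral_eq_zero_of_anti (T := Prod.map id (SS k₃))
      ((MeasurePreserving.id _).prod (measurePreserving_SS k₃ D)) ?_ ?_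
    · rintro ⟨z, z'⟩
      simp only [Prod.map_apply, SS_SS, id]
    · rintro ⟨z, z'⟩
      simp only [Prod.map_apply, id]
      rw [FF_SS_right hm _ _ ht, gg_SS3]
      ring

/-- early days: the quadratic term vanishes -/
lemma JJ_g_g_early (hm : 2 ≤ m) (σ₁ σ₂ : Equiv.Perm (Fin (m + 2))) {t : ℕ}
    (ht : t ≤ dd m k₃) :
    JJ (seedLaw m D) (FF σ₁ σ₂ t) (gg m k₁ k₂ k₃) (gg m k₁ k₂ k₃) = 0 := by
  refine integral_eq_zero_of_anti (T := Prod.map (SS k₃) id)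
    ((measurePreserving_SS k₃ D).prod (MeasurePreserving.id _)) ?_ ?_
  · rintro ⟨z, z'⟩
    simp only [Prod.map_apply, SS_SS, id]
  · rintro ⟨z, z'⟩
    simp only [Prod.map_apply, id]
    rw [FF_SS_left hm _ _ ht, gg_SS3]
    ring

/-- late days: the quadratic term is an integral over the base event -/
lemma JJ_g_g_late (σ₁ σ₂ : Equiv.Perm (Fin (m + 2))) (t : ℕ) :
    JJ (seedLaw m D) (FF σ₁ σ₂ t) (gg m k₁ k₂ k₃) (gg m k₁ k₂ k₃) =
      JJ (seedLaw m D) (dbl (SS k₁) (dbl (SS k₂) (dbl (SS k₃) (FF σ₁ σ₂ t))))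
        (ind m k₁ k₂ k₃) (ind m k₁ k₂ k₃) := by
  have m1 := measurePreserving_SS (m := m) k₁ D
  have m2 := measurePreserving_SS (m := m) k₂ D
  have m3 := measurePreserving_SS (m := m) k₃ D
  have b3 := BM_FF (m := m) σ₁ σ₂ t
  have b2 := BM.dbl' m3.measurable b3
  have b1 := BM.dbl' m2.measurable b2
  have i0 := BM_ind m k₁ k₂ k₃
  have i1 := BM.anti' m1.measurable i0
  have i2 := BM.anti' m2.measurable i1
  unfold gg
  rw [JJ_anti m3 (SS_SS k₃) b3 i2 i2, JJ_anti m2 (SS_SS k₂) b2 i1 i1,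
    JJ_anti m1 (SS_SS k₁) b1 i0 i0]

lemma JJ_g_g_le (hm : 2 ≤ m) (h12 : k₁ < k₂) (h23 : k₂ < k₃)
    (σ₁ σ₂ : Equiv.Perm (Fin (m + 2))) (t : ℕ) :
    JJ (seedLaw m D) (FF σ₁ σ₂ t) (gg m k₁ k₂ k₃) (gg m k₁ k₂ k₃) ≤ 0 := by
  rcases Nat.lt_or_ge (dd m k₃) t with ht | ht
  · rw [JJ_g_g_late]
    refine integral_nonpos_of_ae (Filter.Eventually.of_forall ?_)
    rintro ⟨z, z'⟩
    show _ * (ind m k₁ k₂ k₃ z * ind m k₁ k₂ k₃ z') ≤ 0
    by_cases hz : z ∈ A0 m k₁ k₂ k₃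
    · by_cases hz' : z' ∈ A0 m k₁ k₂ k₃
      · have e : ind m k₁ k₂ k₃ z = 1 := Set.indicator_of_mem hz _
        have e' : ind m k₁ k₂ k₃ z' = 1 := Set.indicator_of_mem hz' _
        rw [e, e', mul_one, mul_one]
        exact T3_le hm h12 h23 ht σ₁ σ₂ hz hz'
      · have e' : ind m k₁ k₂ k₃ z' = 0 := Set.indicator_of_notMem hz' _
        rw [e', mul_zero, mul_zero]
    · have e : ind m k₁ k₂ k₃ z = 0 := Set.indicator_of_notMem hz _
      rw [e, zero_mul, mul_zero]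
  · rw [JJ_g_g_early D hm σ₁ σ₂ ht]

lemma JJ_g_g_lt (hm : 2 ≤ m) (h12 : k₁ < k₂) (h23 : k₂ < k₃)
    {π : Equiv.Perm (Fin (m + 2))} (hπ : ∀ a, π a = a ↔ a = lab m 0)
    (hA : seedLaw m D (A0 m k₁ k₂ k₃) ≠ 0) :
    JJ (seedLaw m D) (FF 1 π (dd m k₃ + 2)) (gg m k₁ k₂ k₃) (gg m k₁ k₂ k₃) < 0 := by
  rw [JJ_g_g_late]
  have h : JJ (seedLaw m D) (dbl (SS k₁) (dbl (SS k₂) (dbl (SS k₃) (FF 1 π (dd m k₃ + 2)))))
      (ind m k₁ k₂ k₃) (ind m k₁ k₂ k₃) =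
      ∫ z : Seed m × Seed m, (-8) * (ind m k₁ k₂ k₃ z.1 * ind m k₁ k₂ k₃ z.2)
        ∂((seedLaw m D).prod (seedLaw m D)) := by
    unfold JJ
    refine integral_congr_ae (Filter.Eventually.of_forall ?_)
    rintro ⟨z, z'⟩
    simp only []
    by_cases hz : z ∈ A0 m k₁ k₂ k₃
    · by_cases hz' : z' ∈ A0 m k₁ k₂ k₃
      · rw [T3_eq_neg hm h12 h23 hπ hz hz']
      · have e' : ind m k₁ k₂ k₃ z' = 0 := Set.indicator_of_notMem hz' _
        rw [e', mul_zero, mul_zero, mul_zero]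
    · have e : ind m k₁ k₂ k₃ z = 0 := Set.indicator_of_notMem hz _
      rw [e, zero_mul, mul_zero, mul_zero]
  rw [h, integral_const_mul, integral_prod_mul]
  have hI : ∫ z, ind m k₁ k₂ k₃ z ∂(seedLaw m D) = (seedLaw m D).real (A0 m k₁ k₂ k₃) := by
    unfold ind
    rw [integral_indicator_const _ (measurableSet_A0 m k₁ k₂ k₃)]
    simp
  rw [hI]
  have hpos : 0 < (seedLaw m D).real (A0 m k₁ k₂ k₃) := by
    rw [measureReal_def]
    exact ENNReal.toReal_pos hA (measure_ne_top _ _)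
  nlinarith [mul_pos hpos hpos]

/-- the integral of the perturbation vanishes -/
lemma integral_gg : ∫ z, gg m k₁ k₂ k₃ z ∂(seedLaw m D) = 0 :=
  integral_eq_zero_of_anti (measurePreserving_SS k₃ D) (SS_SS k₃) gg_SS3

/-- If the base event has positive probability, the perturbed strategy is strictly better. -/
theorem expTime_perturb (hm : 2 ≤ m) (h12 : k₁ < k₂) (h23 : k₂ < k₃)
    {π : Equiv.Perm (Fin (m + 2))} (hπ : ∀ a, π a = a ↔ a = lab m 0)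
    (hA : seedLaw m D (A0 m k₁ k₂ k₃) ≠ 0) (hfin : expTime (m + 2) (tourLaw m D) ≠ ⊤) :
    ∃ ν : Measure (ℕ → Fin (m + 2)), IsProbabilityMeasure ν ∧
      (∀ t, survival (m + 2) ν t ≤ survival (m + 2) (tourLaw m D) t) ∧
      expTime (m + 2) ν < expTime (m + 2) (tourLaw m D) := by
  set H : Seed m → ℝ := fun z => 1 + (1 / 8) * gg m k₁ k₂ k₃ z with hHdef
  have hH : BM H := (BM.const 1).add ((BM.const (1 / 8)).mul BM_gg)
  have hH0 : ∀ z, 0 ≤ H z := by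
    intro z
    have := abs_le.1 (gg_abs (k₁ := k₁) (k₂ := k₂) (k₃ := k₃) z)
    simp only [hHdef]
    linarith [this.1]
  have hH1 : ∫ z, H z ∂(seedLaw m D) = 1 := by
    have e : ∫ z, H z ∂(seedLaw m D) = ∫ _z, (1 : ℝ) ∂(seedLaw m D) +
        ∫ z, (1 / 8) * gg m k₁ k₂ k₃ z ∂(seedLaw m D) :=
      integral_add (integrable_const _) ((BM_gg.integrable _).const_mul _)
    rw [e, integral_const_mul, integral_gg]
    simp
  have hO : BM (fun _ : Seed m => (1 : ℝ)) := BM.const 1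
  have hO0 : ∀ z : Seed m, (0 : ℝ) ≤ (fun _ : Seed m => (1 : ℝ)) z := fun _ => zero_le_one
  have hO1 : ∫ _z, (1 : ℝ) ∂(seedLaw m D) = 1 := by simp
  have hpH := isProb_tilt m D hH hH0 hH1
  have hpO := isProb_tilt m D hO hO0 hO1
  refine ⟨tilt m D H, hpH, ?_⟩
  rw [← tilt_one] at hfin ⊢
  rw [expTime_tilt m D hO hO0 hO1] at hfin ⊢
  rw [expTime_tilt m D hH hH0 hH1]
  have hJ : ∀ (σ₁ σ₂ : Equiv.Perm (Fin (m + 2))) (t : ℕ),
      JJ (seedLaw m D) (FF σ₁ σ₂ t) H H =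
        JJ (seedLaw m D) (FF σ₁ σ₂ t) (fun _ => 1) (fun _ => 1) +
          (1 / 8) ^ 2 * JJ (seedLaw m D) (FF σ₁ σ₂ t) (gg m k₁ k₂ k₃) (gg m k₁ k₂ k₃) := by
    intro σ₁ σ₂ t
    rw [hHdef, JJ_expand (BM_FF σ₁ σ₂ t) BM_gg, JJ_g_one D hm h23, JJ_one_g D hm h23]
    ring
  have hnn : ∀ (σ₁ σ₂ : Equiv.Perm (Fin (m + 2))) (t : ℕ),
      0 ≤ JJ (seedLaw m D) (FF σ₁ σ₂ t) H H := by
    intro σ₁ σ₂ t
    exact integral_nonneg fun z =>
      mul_nonneg (FF_nonneg _ _ _ _ _) (mul_nonneg (hH0 _) (hH0 _))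
  have hc0 : (((m + 2).factorial : ℝ≥0∞)⁻¹ * ((m + 2).factorial : ℝ≥0∞)⁻¹) ≠ 0 := by
    simp
  have hct : (((m + 2).factorial : ℝ≥0∞)⁻¹ * ((m + 2).factorial : ℝ≥0∞)⁻¹) ≠ ⊤ := by
    refine ENNReal.mul_ne_top ?_ ?_ <;>
    · rw [ENNReal.inv_ne_top]
      exact_mod_cast (Nat.factorial_pos (m + 2)).ne'
  have hle : ∀ p : Equiv.Perm (Fin (m + 2)) × Equiv.Perm (Fin (m + 2)) × ℕ,
      (((m + 2).factorial : ℝ≥0∞)⁻¹ * ((m + 2).factorial : ℝ≥0∞)⁻¹) *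
          ENNReal.ofReal (JJ (seedLaw m D) (FF p.1 p.2.1 p.2.2) H H) ≤
      (((m + 2).factorial : ℝ≥0∞)⁻¹ * ((m + 2).factorial : ℝ≥0∞)⁻¹) *
          ENNReal.ofReal (JJ (seedLaw m D) (FF p.1 p.2.1 p.2.2) (fun _ => 1) (fun _ => 1)) := by
    intro p
    gcongr
    rw [hJ]
    have := JJ_g_g_le D hm h12 h23 p.1 p.2.1 p.2.2
    nlinarith
  have hlt : (((m + 2).factorial : ℝ≥0∞)⁻¹ * ((m + 2).factorial : ℝ≥0∞)⁻¹) *
          ENNReal.ofReal (JJ (seedLaw m D) (FF 1 π (dd m k₃ + 2)) H H) <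
      (((m + 2).factorial : ℝ≥0∞)⁻¹ * ((m + 2).factorial : ℝ≥0∞)⁻¹) *
          ENNReal.ofReal (JJ (seedLaw m D) (FF 1 π (dd m k₃ + 2)) (fun _ => 1) (fun _ => 1)) := by
    rw [ENNReal.mul_lt_mul_iff_right hc0 hct]
    have h1 := JJ_g_g_lt D hm h12 h23 hπ hA
    have h2 := hJ 1 π (dd m k₃ + 2)
    have h3 := hnn 1 π (dd m k₃ + 2)
    rw [ENNReal.ofReal_lt_ofReal_iff_of_nonneg h3]
    nlinarith
  refine ⟨fun t => ?_, ENNReal.tsum_lt_tsum (i := (1, π, dd m k₃ + 2))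
    (ne_top_of_le_ne_top hfin (ENNReal.tsum_le_tsum hle)) hle hlt⟩
  rw [survival_eq, survival_eq]
  refine Finset.sum_le_sum fun σ₁ _ => Finset.sum_le_sum fun σ₂ _ => ?_
  rw [lintegral_nt_tilt m D hH hH0 hH1, lintegral_nt_tilt m D hO hO0 hO1]
  exact hle (σ₁, σ₂, t)

end

end Pool.Agent.RdvTour
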