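import Pool.Agent.Lib.RdvTour.Defs

/-!
Strategies that in each block of `n - 1` days either stay or visit the other `n - 1` locations in
uniformly random order. Here `n = m + 2`, so a block has `m + 1` days.
-/

open MeasureTheory
open scoped ENNReal

namespace Pool.Agent.RdvTour

/-- all sets of permutations of `Fin k` are measurable -/
instance instMeasurableSpacePermFin (k : ℕ) : MeasurableSpace (Equiv.Perm (Fin k)) := ⊤

/-- The uniform distribution on a finite type. -/
noncomputable def uniform (α : Type*) [Fintype α] [MeasurableSpace α] : Measure α :=
  (Fintype.card α : ℝ≥0∞)⁻¹ • Measure.count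

/-- The location (label) at the beginning of block `k`, when the first label is `c`, `b k` tells
whether block `k` is a tour, and the `j`-th location visited by a tour in block `k` is the
`r k j`-th label different from the label at the beginning of the block. -/
def start {m : ℕ} (c : Fin (m + 2)) (b : ℕ → Bool) (r : ℕ → Equiv.Perm (Fin (m + 1))) :
    ℕ → Fin (m + 2)
  | 0 => c
  | k + 1 => if b k = true then (start c b r k).succAbove (r k (Fin.last m)) else start c b r k

/-- The whole sequence of labels. Block `k` consists of the times `t + 1` with
`t / (m + 1) = k`. -/
def word {m : ℕ} (c : Fin (m + 2)) (b : ℕ → Bool) (r : ℕ → Equiv.Perm (Fin (m + 1))) :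
    ℕ → Fin (m + 2)
  | 0 => c
  | t + 1 =>
    if b (t / (m + 1)) = true then
      (start c b r (t / (m + 1))).succAbove
        (r (t / (m + 1)) ⟨t % (m + 1), Nat.mod_lt _ (Nat.succ_pos m)⟩)
    else start c b r (t / (m + 1))

/-- The strategy on `n = m + 2` locations which starts at a uniformly random location and then,
in each block of `n - 1` days, either stays or visits the other `n - 1` locations in uniformly
random order; the sequence of the decisions (`true` for a tour) has law `D` and is independent of
the locations. -/
noncomputable def tourLaw (m : ℕ) (D : Measure (ℕ → Bool)) : Measure (ℕ → Fin (m + 2)) :=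
  ((uniform (Fin (m + 2))).prod
    (D.prod (Measure.infinitePi fun _ : ℕ => uniform (Equiv.Perm (Fin (m + 1)))))).map
      (fun z => word z.1 z.2.1 z.2.2)

end Pool.Agent.RdvTour
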