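import Pool.Agent.Lib.RdvTour.Basic
import Pool.Agent.Lib.RdvTour.TourDefs

open MeasureTheory
open scoped ENNReal

namespace Pool.Agent.RdvTour

instance instDiscretePermFin (k : ℕ) : DiscreteMeasurableSpace (Equiv.Perm (Fin k)) :=
  ⟨fun _ => trivial⟩

instance instIsProbUniform (α : Type*) [Fintype α] [Nonempty α] [MeasurableSpace α] :
    IsProbabilityMeasure (uniform α) := by
  constructor
  unfold uniform
  rw [Measure.smul_apply, Measure.count_univ, smul_eq_mul]
  have h0 : ((Fintype.card α : ℕ) : ℝ≥0∞) ≠ 0 := by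
    exact_mod_cast Fintype.card_ne_zero
  have h1 : ((Fintype.card α : ℕ) : ℝ≥0∞) ≠ ⊤ := ENNReal.natCast_ne_top _
  have : ENat.toENNReal (ENat.card α) = ((Fintype.card α : ℕ) : ℝ≥0∞) := by
    rw [ENat.card_eq_coe_fintype_card]; simp
  rw [this]
  exact ENNReal.inv_mul_cancel h0 h1

lemma uniform_map_equiv {α : Type*} [Fintype α] [MeasurableSpace α] [DiscreteMeasurableSpace α]
    (e : α ≃ α) : (uniform α).map e = uniform α := by
  ext s hs
  rw [Measure.map_apply (Measurable.of_discrete) hs]
  unfold uniform
  rw [Measure.smul_apply, Measure.smul_apply, Measure.count_apply (MeasurableSet.of_discrete),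
    Measure.count_apply hs]
  congr 2
  exact Set.encard_preimage_of_bijective e.bijective s

end Pool.Agent.RdvTour
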