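import Pool.Agent.Lib.RdvTour.Seeds

open MeasureTheory
open scoped ENNReal

namespace Pool.Agent.RdvTour

variable {m : ℕ}

/-- exchange the first two locations of the order used in block `k` -/
def swapAt (k : ℕ) (r : ℕ → Equiv.Perm (Fin (m + 1))) : ℕ → Equiv.Perm (Fin (m + 1)) :=
  fun i => (if i = k then Equiv.mulRight (Equiv.swap 0 1) else Equiv.refl _) (r i)

lemma swapAt_self (k : ℕ) (r : ℕ → Equiv.Perm (Fin (m + 1))) :
    swapAt k r k = r k * Equiv.swap 0 1 := by
  simp [swapAt]

lemma swapAt_of_ne {k i : ℕ} (h : i ≠ k) (r : ℕ → Equiv.Perm (Fin (m + 1))) :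
    swapAt k r i = r i := by
  simp [swapAt, h]

lemma swapAt_swapAt (k : ℕ) (r : ℕ → Equiv.Perm (Fin (m + 1))) :
    swapAt k (swapAt k r) = r := by
  funext i
  by_cases h : i = k
  · subst h
    rw [swapAt_self, swapAt_self, mul_assoc, Equiv.swap_mul_self, mul_one]
  · rw [swapAt_of_ne h, swapAt_of_ne h]

lemma swapAt_comm (k l : ℕ) (r : ℕ → Equiv.Perm (Fin (m + 1))) (hkl : k ≠ l) :
    swapAt k (swapAt l r) = swapAt l (swapAt k r) := by
  funext i
  by_cases h : i = k
  · subst h
    rw [swapAt_self, swapAt_of_ne hkl, swapAt_of_ne hkl, swapAt_self]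
  · rw [swapAt_of_ne h]
    by_cases h' : i = l
    · subst h'
      rw [swapAt_self, swapAt_self, swapAt_of_ne h]
    · rw [swapAt_of_ne h', swapAt_of_ne h', swapAt_of_ne h]

lemma measurePreserving_swapAt (k : ℕ) :
    MeasurePreserving (swapAt (m := m) k)
      (Measure.infinitePi fun _ : ℕ => uniform (Equiv.Perm (Fin (m + 1))))
      (Measure.infinitePi fun _ : ℕ => uniform (Equiv.Perm (Fin (m + 1)))) := by
  have hmeas : ∀ i : ℕ, Measurable
      (fun x : Equiv.Perm (Fin (m + 1)) =>
        ((if i = k then Equiv.mulRight (Equiv.swap 0 1) else Equiv.refl _ :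
          Equiv.Perm (Fin (m + 1)) ≃ Equiv.Perm (Fin (m + 1))) x)) :=
    fun i => Measurable.of_discrete
  constructor
  · exact measurable_pi_iff.2 fun i => (hmeas i).comp (measurable_pi_apply i)
  · have h := Measure.infinitePi_map_pi
      (μ := fun _ : ℕ => uniform (Equiv.Perm (Fin (m + 1)))) hmeas
    have h2 : (fun i : ℕ => (uniform (Equiv.Perm (Fin (m + 1)))).map
        (fun x : Equiv.Perm (Fin (m + 1)) =>
        ((if i = k then Equiv.mulRight (Equiv.swap 0 1) else Equiv.refl _ :
          Equiv.Perm (Fin (m + 1)) ≃ Equiv.Perm (Fin (m + 1))) x)))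
        = fun _ => uniform (Equiv.Perm (Fin (m + 1))) := by
      funext i
      exact uniform_map_equiv _
    rw [h2] at h
    exact h

lemma swap_last (hm : 2 ≤ m) : (Equiv.swap (0 : Fin (m + 1)) 1) (Fin.last m) = Fin.last m := by
  apply Equiv.swap_apply_of_ne_of_ne
  · intro h
    have := congrArg Fin.val h
    simp at this
    omega
  · intro h
    have := congrArg Fin.val h
    rw [Fin.val_last, Fin.val_one', Nat.mod_eq_of_lt (by omega)] at this
    omega

lemma start_swapAt (hm : 2 ≤ m) (k : ℕ) (c : Fin (m + 2)) (b : ℕ → Bool)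
    (r : ℕ → Equiv.Perm (Fin (m + 1))) : start c b (swapAt k r) = start c b r := by
  funext i
  induction i with
  | zero => rfl
  | succ i ih =>
    unfold start
    rw [ih]
    by_cases h : i = k
    · subst h
      rw [swapAt_self, Equiv.Perm.mul_apply, swap_last hm]
    · rw [swapAt_of_ne h]

lemma word_day (c : Fin (m + 2)) (b : ℕ → Bool) (r : ℕ → Equiv.Perm (Fin (m + 1))) (k j : ℕ)
    (hj : j < m + 1) : word c b r (k * (m + 1) + j + 1) =
      if b k = true then (start c b r k).succAbove (r k ⟨j, hj⟩) else start c b r k := by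
  have h1 : (k * (m + 1) + j) / (m + 1) = k := by
    rw [Nat.add_comm, Nat.add_mul_div_right _ _ (Nat.succ_pos m), Nat.div_eq_of_lt hj]; simp
  have h2 : (k * (m + 1) + j) % (m + 1) = j := by
    rw [Nat.add_comm, Nat.add_mul_mod_self_right, Nat.mod_eq_of_lt hj]
  show (if b ((k * (m + 1) + j) / (m + 1)) = true then _ else _) = _
  simp only [h1, h2]

lemma word_swapAt (hm : 2 ≤ m) (k : ℕ) (c : Fin (m + 2)) (b : ℕ → Bool)
    (r : ℕ → Equiv.Perm (Fin (m + 1))) :
    word c b (swapAt k r) =
      word c b r ∘ Equiv.swap (k * (m + 1) + 1) (k * (m + 1) + 2) := by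
  funext t
  rcases t with _ | t
  · show c = _
    rw [Function.comp_apply, Equiv.swap_apply_of_ne_of_ne (by omega) (by omega)]
    rfl
  · obtain ⟨q, j, hj, rfl⟩ : ∃ q j, j < m + 1 ∧ t = q * (m + 1) + j :=
      ⟨t / (m + 1), t % (m + 1), Nat.mod_lt _ (Nat.succ_pos m), by
        rw [Nat.mul_comm]; exact (Nat.div_add_mod t (m + 1)).symm⟩
    rw [word_day _ _ _ _ _ hj, start_swapAt hm, Function.comp_apply]
    by_cases hq : q = k
    · subst hq
      rw [swapAt_self, Equiv.Perm.mul_apply]
      by_cases hj0 : j = 0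
      · subst hj0
        rw [show q * (m + 1) + 0 + 1 = q * (m + 1) + 1 by ring, Equiv.swap_apply_left,
          show q * (m + 1) + 2 = q * (m + 1) + 1 + 1 by ring, word_day _ _ _ _ _ (by omega : 1 < m + 1)]
        have : (⟨0, hj⟩ : Fin (m + 1)) = 0 := rfl
        rw [this, Equiv.swap_apply_left]
        have h1 : (1 : Fin (m + 1)) = ⟨1, by omega⟩ := by
          apply Fin.ext
          rw [Fin.val_one', Nat.mod_eq_of_lt (by omega)]
        rw [h1]
      · by_cases hj1 : j = 1
        · subst hj1
          rw [show q * (m + 1) + 1 + 1 = q * (m + 1) + 2 by ring, Equiv.swap_apply_right,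
            show q * (m + 1) + 1 = q * (m + 1) + 0 + 1 by ring,
            word_day _ _ _ _ _ (by omega : 0 < m + 1)]
          have h1 : (⟨1, hj⟩ : Fin (m + 1)) = 1 := by
            apply Fin.ext
            rw [Fin.val_one', Nat.mod_eq_of_lt (by omega)]
          rw [h1, Equiv.swap_apply_right]
          rfl
        · have h2 : (Equiv.swap (0 : Fin (m + 1)) 1) ⟨j, hj⟩ = ⟨j, hj⟩ := by
            apply Equiv.swap_apply_of_ne_of_ne
            · intro h
              exact hj0 (by simpa using congrArg Fin.val h)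
            · intro h
              have := congrArg Fin.val h
              rw [Fin.val_one', Nat.mod_eq_of_lt (by omega)] at this
              exact hj1 this
          have h3 : (Equiv.swap (q * (m + 1) + 1) (q * (m + 1) + 2)) (q * (m + 1) + j + 1)
              = q * (m + 1) + j + 1 :=
            Equiv.swap_apply_of_ne_of_ne (by omega) (by omega)
          rw [h2, h3, word_day _ _ _ _ _ hj]
    · rw [swapAt_of_ne hq]
      have hne : ∀ i, i < 2 → q * (m + 1) + j + 1 ≠ k * (m + 1) + 1 + i := by
        intro i hi h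
        have h3 : q * (m + 1) + j = k * (m + 1) + i := by omega
        have h4 : (q * (m + 1) + j) / (m + 1) = q := by
          rw [Nat.add_comm, Nat.add_mul_div_right _ _ (Nat.succ_pos m), Nat.div_eq_of_lt hj]; simp
        have h5 : (k * (m + 1) + i) / (m + 1) = k := by
          rw [Nat.add_comm, Nat.add_mul_div_right _ _ (Nat.succ_pos m),
            Nat.div_eq_of_lt (by omega)]; simp
        apply hq
        rw [← h4, h3, h5]
      rw [Equiv.swap_apply_of_ne_of_ne (hne 0 (by omega)) (hne 1 (by omega)),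
        word_day _ _ _ _ _ hj]

end Pool.Agent.RdvTour
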